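import Pool.Agent.SYS.SL.Clos
import Pool.Agent.SYS.RB.Win

/-!
# SYS-TC-Num: numbers of hidden maps with at most three holes, compared with the random walk weight

`wx x n p F = A^p y^((v-p)/2)`, `v = 2n - F`.  Direct from `nf_up`, `seph`, `nu_gen`, `nu_up`.
-/

namespace SYS.TC

open SYS.Num Real Filter Topology

/-- `A^p y^((v-p)/2)`, `v = 2n - F`. -/
noncomputable def wx (x : ℝ) (n p F : ℕ) : ℝ := gam x ^ p * √(yy x) ^ (2 * n - F)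

theorem wx_pos (x : ℝ) (n p F : ℕ) : 0 < wx x n p F := by
  unfold wx
  have h1 := low_gam x
  have h2 : 0 < √(yy x) := Real.sqrt_pos.2 (yy_pos x)
  positivity

private theorem nm_log {A c : ℝ} (hc : 0 < c) (θ : ℝ) : ∀ᶠ q in Num.Fth θ, A * log ((q : ℕ × ℕ).1 : ℝ) ≤ c * q.1 := by
  have hA : (0 : ℝ) < |A| + 1 := by positivity
  have h1 := (Real.isLittleO_log_id_atTop.comp_tendsto (RB.fst_atTop θ)).def
    (c := c / (|A| + 1)) (by positivity)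
  filter_upwards [h1, RB.ge_ev θ 1] with q hn hq
  have hq1 : (1 : ℝ) ≤ q.1 := by exact_mod_cast hq
  have h2 : log (q.1 : ℝ) ≤ c / (|A| + 1) * q.1 := by
    have h3 : |log (q.1 : ℝ)| ≤ c / (|A| + 1) * |(q.1 : ℝ)| := hn
    rw [Nat.abs_cast] at h3
    exact (le_abs_self _).trans h3
  have h0 : 0 ≤ log (q.1 : ℝ) := Real.log_nonneg hq1
  have h3 : |A| * log q.1 ≤ |A| * (c / (|A| + 1) * q.1) := mul_le_mul_of_nonneg_left h2 (abs_nonneg A)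
  have h4 : |A| * (c / (|A| + 1) * q.1) ≤ (|A| + 1) * (c / (|A| + 1) * q.1) :=
    mul_le_mul_of_nonneg_right (by linarith) (by positivity)
  have h5 : (|A| + 1) * (c / (|A| + 1) * q.1) = c * q.1 := by
    field_simp
  have h6 : A * log (q.1 : ℝ) ≤ |A| * log q.1 := mul_le_mul_of_nonneg_right (le_abs_self A) h0
  linarith

theorem win_ev {θ : ℝ} (hθ : 0 < θ) (hθ1 : θ < 1 / 2) (A : ℝ) {δ : ℝ} (hδ : 0 < δ) (M : ℕ) :
    ∀ᶠ q in Num.Fth θ, ∀ F : ℕ, F ≤ 2 * (q : ℕ × ℕ).1 → 2 * (q.1 : ℝ) ≤ F + A * log q.1 →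
      q.1 ≤ F ∧ M ≤ F ∧ |2 * (q.2 : ℝ) - θ * F| ≤ δ * F ∧
        |2 * ((q.2 - 1 : ℕ) : ℝ) - θ * F| ≤ δ * F ∧ A * log q.1 ≤ δ * F := by
  obtain ⟨c, hc⟩ : ∃ c : ℝ, c = min δ 1 / 16 := ⟨_, rfl⟩
  have hm : 0 < min δ 1 := lt_min hδ one_pos
  have hc0 : 0 < c := by
    rw [hc]
    positivity
  have hc1 : 16 * c ≤ δ := by
    rw [hc]
    have := min_le_left δ 1
    linarith
  have hc2 : 16 * c ≤ 1 := by
    rw [hc]
    have := min_le_right δ 1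
    linarith
  have h2 : ∀ᶠ q in Num.Fth θ, |((q : ℕ × ℕ).2 : ℝ) / q.1 - θ| < c := by
    have h3 := Metric.tendsto_nhds.1 (RB.div_lim θ) c hc0
    simp only [Real.dist_eq] at h3
    exact h3
  filter_upwards [nm_log (A := A) hc0 θ, h2, RB.ge_ev θ M, RB.ge_ev θ (⌈2 / c⌉₊ + 1)]
    with q h3 h4 h5 h6
  intro F hF hF'
  have hn1 : 1 ≤ q.1 := by omega
  have hn0 : (0 : ℝ) < q.1 := by exact_mod_cast hn1
  have hlog : 0 ≤ log (q.1 : ℝ) := Real.log_nonneg (by exact_mod_cast hn1)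
  have e2 : |(q.2 : ℝ) - θ * q.1| ≤ c * q.1 := by
    have e3 : (q.2 : ℝ) - θ * q.1 = ((q.2 : ℝ) / q.1 - θ) * q.1 := by
      field_simp
    rw [e3, abs_mul, abs_of_pos hn0]
    exact mul_le_mul_of_nonneg_right h4.le hn0.le
  have e4 : 2 ≤ c * q.1 := by
    have e5 : 2 / c ≤ (⌈2 / c⌉₊ : ℝ) := Nat.le_ceil _
    have e6 : (⌈2 / c⌉₊ : ℝ) + 1 ≤ q.1 := by exact_mod_cast h6
    have e7 : 2 / c ≤ q.1 := by linarith
    rw [div_le_iff₀ hc0] at e7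
    linarith
  have hFr : (F : ℝ) ≤ 2 * q.1 := by exact_mod_cast hF
  have hcn : c * q.1 ≤ 1 / 16 * q.1 := mul_le_mul_of_nonneg_right (by linarith) hn0.le
  have hnF : (q.1 : ℝ) ≤ F := by linarith
  have hnF' : q.1 ≤ F := by exact_mod_cast hnF
  have hδF : 16 * (c * q.1) ≤ δ * F := by
    have e8 : 16 * c * q.1 ≤ δ * F := mul_le_mul hc1 hnF hn0.le hδ.le
    linarith
  have e9 : 0 ≤ θ * (2 * q.1 - F) := mul_nonneg hθ.le (by linarith)
  have e10 : θ * (2 * q.1 - F) ≤ 1 * (c * q.1) := mul_le_mul (by linarith) (by linarith) (by linarith) (by norm_num)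
  have e11 := abs_le.1 e2
  refine ⟨hnF', h5.trans hnF', ?_, ?_, ?_⟩
  · rw [abs_le]
    constructor <;> linarith
  · have e12 : ((q.2 - 1 : ℕ) : ℝ) ≤ q.2 := by exact_mod_cast Nat.sub_le _ _
    have e13 : (q.2 : ℝ) ≤ ((q.2 - 1 : ℕ) : ℝ) + 1 := by
      have : q.2 ≤ q.2 - 1 + 1 := by omega
      exact_mod_cast this
    rw [abs_le]
    constructor <;> linarith
  · linarith

theorem pow_ev (A : ℝ) {ε ε₁ : ℝ} (hε : 0 < ε) (hε₁ : ε₁ = ε / (8 * (|A| + 1))) (K θ : ℝ) :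
    ∀ᶠ q in Num.Fth θ, ∀ P v : ℕ, (P : ℝ) ≤ A * log (q : ℕ × ℕ).1 → (v : ℝ) ≤ A * log q.1 →
      K * (exp (ε₁ * P) * exp (ε₁ * v)) ≤ (q.1 : ℝ) ^ ε := by
  have h1 : Tendsto (fun q : ℕ × ℕ => (q.1 : ℝ) ^ (ε / 2)) (Num.Fth θ) atTop :=
    (tendsto_rpow_atTop (by positivity)).comp (RB.fst_atTop θ)
  have hA : (0 : ℝ) < |A| + 1 := by positivity
  have h0 : 0 < ε₁ := by
    rw [hε₁]
    positivity
  have h00 : ε₁ * |A| ≤ ε / 8 := by
    have e1 : ε₁ * (|A| + 1) = ε / 8 := by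
      rw [hε₁]
      field_simp
    nlinarith
  filter_upwards [h1.eventually_ge_atTop |K|, RB.ge_ev θ 1] with q h2 h3
  intro P v hP hv
  have hn0 : (0 : ℝ) < q.1 := by exact_mod_cast h3
  have hlog : 0 ≤ log (q.1 : ℝ) := Real.log_nonneg (by exact_mod_cast h3)
  have key : ∀ R : ℕ, (R : ℝ) ≤ A * log q.1 → ε₁ * R ≤ ε / 8 * log q.1 := by
    intro R hR
    have h4 : (R : ℝ) ≤ |A| * log q.1 := hR.trans (mul_le_mul_of_nonneg_right (le_abs_self A) hlog)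
    calc ε₁ * (R : ℝ) ≤ ε₁ * (|A| * log q.1) := mul_le_mul_of_nonneg_left h4 h0.le
      _ = ε₁ * |A| * log q.1 := by ring
      _ ≤ ε / 8 * log q.1 := mul_le_mul_of_nonneg_right h00 hlog
  have h5 := key P hP
  have h5' := key v hv
  have h6 : exp (ε₁ * P) * exp (ε₁ * v) ≤ (q.1 : ℝ) ^ (ε / 2) := by
    rw [← Real.exp_add, Real.rpow_def_of_pos hn0]
    refine Real.exp_le_exp.2 ?_
    have h7 : 0 ≤ ε * log q.1 := by positivity
    nlinarith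
  have h7 : (q.1 : ℝ) ^ ε = (q.1 : ℝ) ^ (ε / 2) * (q.1 : ℝ) ^ (ε / 2) := by
    rw [← Real.rpow_add hn0]
    ring_nf
  rw [h7]
  have h8 : 0 ≤ exp (ε₁ * P) * exp (ε₁ * v) := by positivity
  exact (mul_le_mul_of_nonneg_right (le_abs_self K) h8).trans
    (mul_le_mul h2 h6 h8 (by positivity))

/-- Comparison of `nu`. -/
theorem nu_cmp {θ x : ℝ} (h : Par θ x) (A : ℝ) {ε : ℝ} (hε : 0 < ε) : ∀ᶠ q in Num.Fth θ, ∀ F : ℕ,
    F ≤ 2 * (q : ℕ × ℕ).1 → SST.nu ((F + 1) / 2) q.2 ≤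
      (√(yy x))⁻¹ * exp (ε * (2 * q.1 - F : ℕ)) * √(yy x) ^ (2 * q.1 - F) * SST.nu q.1 q.2 := by
  have _ := A
  have hy := yy_pos x
  have hs : 0 < √(yy x) := Real.sqrt_pos.2 hy
  have hs1 : √(yy x) ≤ 1 := Real.sqrt_le_one.2 (low_yy1 x)
  obtain ⟨δ, M, hδ, H⟩ := nu_up h (ε := yy x * ε) (by positivity)
  have h2 : ∀ᶠ q in Num.Fth θ, |((q : ℕ × ℕ).2 : ℝ) / q.1 - θ| < δ := by
    have h3 := Metric.tendsto_nhds.1 (RB.div_lim θ) δ hδ
    simp only [Real.dist_eq] at h3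
    exact h3
  filter_upwards [h2, RB.ge_ev θ M, RB.ge_ev θ 1] with q h3 h4 h5
  intro F hF
  have hn0 : (0 : ℝ) < q.1 := by exact_mod_cast h5
  have e2 : |(q.2 : ℝ) - θ * q.1| ≤ δ * q.1 := by
    have e3 : (q.2 : ℝ) - θ * q.1 = ((q.2 : ℝ) / q.1 - θ) * q.1 := by
      field_simp
    rw [e3, abs_mul, abs_of_pos hn0]
    exact mul_le_mul_of_nonneg_right h3.le hn0.le
  obtain ⟨l, hl⟩ : ∃ l, l = (2 * q.1 - F) / 2 := ⟨_, rfl⟩
  have e1 : (F + 1) / 2 = q.1 - l := by omega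
  have h6 := H q.1 q.2 l h4 e2 (by omega)
  rw [← e1] at h6
  have hN := RB.nu_nn q.1 q.2
  refine h6.trans (mul_le_mul_of_nonneg_right ?_ hN)
  have h7 : yy x + yy x * ε ≤ yy x * exp ε := by
    have := Real.add_one_le_exp ε
    nlinarith
  have h8 : (yy x + yy x * ε) ^ l ≤ (yy x * exp ε) ^ l := pow_le_pow_left₀ (by positivity) h7 l
  refine h8.trans ?_
  rw [mul_pow, ← Real.exp_nat_mul]
  have h9 : exp ((l : ℝ) * ε) ≤ exp (ε * (2 * q.1 - F : ℕ)) := by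
    refine Real.exp_le_exp.2 ?_
    rw [mul_comm]
    refine mul_le_mul_of_nonneg_left ?_ hε.le
    exact_mod_cast (by omega : l ≤ 2 * q.1 - F)
  have h10 : yy x ^ l ≤ (√(yy x))⁻¹ * √(yy x) ^ (2 * q.1 - F) := by
    have h11 : yy x ^ l = √(yy x) ^ (2 * l) := by
      rw [pow_mul, Real.sq_sqrt hy.le]
    rw [h11, inv_mul_eq_div, le_div_iff₀ hs, ← pow_succ]
    exact pow_le_pow_of_le_one hs.le hs1 (by omega)
  calc yy x ^ l * exp ((l : ℝ) * ε) ≤ ((√(yy x))⁻¹ * √(yy x) ^ (2 * q.1 - F)) * exp (ε * (2 * q.1 - F : ℕ)) :=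
        mul_le_mul h10 h9 (Real.exp_pos _).le (by positivity)
    _ = _ := by ring

private theorem nm_fin {n F X K E E' G Y s N N' ε e : ℝ} {a b : ℕ} (hn : 1 ≤ n) (hF : n ≤ F) (hF2 : F ≤ 2 * n)
    (hX : 0 ≤ X) (hK : 0 ≤ K) (hE : 0 ≤ E) (_ : 0 ≤ E') (hG : 0 ≤ G) (hY : 0 ≤ Y) (_ : 0 ≤ s) (hN : 0 ≤ N)
    (h : F ^ a * X ≤ K * E * G * F ^ b * N') (h' : N' ≤ s * E' * Y * N)
    (hL : (2 ^ b * K * s) * (E * E') ≤ n ^ ε) (he : e = (b : ℝ) - a + ε) : X ≤ n ^ e * (N * (G * Y)) := by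
  have hn0 : 0 < n := by linarith
  have hF0 : 0 < F := by linarith
  have h1 : n ^ a * X ≤ F ^ a * X := mul_le_mul_of_nonneg_right (pow_le_pow_left₀ hn0.le hF a) hX
  have h2 : F ^ b ≤ (2 * n) ^ b := pow_le_pow_left₀ hF0.le hF2 b
  have h3 : K * E * G * F ^ b * N' ≤ K * E * G * F ^ b * (s * E' * Y * N) :=
    mul_le_mul_of_nonneg_left h' (by positivity)
  have h4 : K * E * G * F ^ b * (s * E' * Y * N) ≤ K * E * G * (2 * n) ^ b * (s * E' * Y * N) := by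
    refine mul_le_mul_of_nonneg_right ?_ (by positivity)
    exact mul_le_mul_of_nonneg_left h2 (by positivity)
  have h5 : K * E * G * (2 * n) ^ b * (s * E' * Y * N) = n ^ b * (((2 ^ b * K * s) * (E * E')) * (N * (G * Y))) := by
    rw [mul_pow]
    ring
  have h6 : n ^ b * (((2 ^ b * K * s) * (E * E')) * (N * (G * Y))) ≤ n ^ b * (n ^ ε * (N * (G * Y))) := by
    refine mul_le_mul_of_nonneg_left ?_ (by positivity)
    exact mul_le_mul_of_nonneg_right hL (by positivity)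
  have h7 : n ^ e = n ^ b * n ^ ε / n ^ a := by
    rw [he, Real.rpow_add hn0, Real.rpow_sub hn0, Real.rpow_natCast, Real.rpow_natCast]
    ring
  have h8 : 0 < n ^ a := pow_pos hn0 a
  rw [h7, div_mul_eq_mul_div, le_div_iff₀ h8]
  linarith

private theorem nm_LL (a : ℕ) (P₁ P₂ : Multiset ℕ) (F g : ℕ) : 0 ≤ LL a P₁ P₂ F g := by
  unfold LL
  refine Finset.sum_nonneg fun f _ => Finset.sum_nonneg fun e _ => ?_
  split_ifs
  · exact mul_nonneg (muG_nonneg _ _ _) (muG_nonneg _ _ _)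
  · exact le_rfl

theorem num_cnt {θ x : ℝ} (h : Par θ x) (A : ℝ) {ε : ℝ} (hε : 0 < ε) : ∀ᶠ q in Num.Fth θ, ∀ F P : ℕ,
    F ≤ 2 * (q : ℕ × ℕ).1 → 2 * (q.1 : ℝ) ≤ F + A * log q.1 → 1 ≤ P → (P : ℝ) ≤ A * log q.1 →
      (muG {P} F q.2 ≤ (q.1 : ℝ) ^ (1 + ε) * (SST.nu q.1 q.2 * wx x q.1 P F) ∧
        muG {P} F (q.2 - 1) ≤ (q.1 : ℝ) ^ (-1 + ε) * (SST.nu q.1 q.2 * wx x q.1 P F)) ∧
      (∀ p₁ p₂ : ℕ, 1 ≤ p₁ → 1 ≤ p₂ → p₁ + p₂ = P →
        LL 2 {p₁} {p₂} F q.2 ≤ (q.1 : ℝ) ^ (-1 + ε) * (SST.nu q.1 q.2 * wx x q.1 P F) ∧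
        muG {p₁, p₂} F (q.2 - 1) ≤ (q.1 : ℝ) ^ ε * (SST.nu q.1 q.2 * wx x q.1 P F)) ∧
      (∀ p₁ p₂ p₃ : ℕ, 1 ≤ p₁ → 1 ≤ p₂ → 1 ≤ p₃ → p₁ + p₂ + p₃ = P →
        muG {p₁, p₂, p₃} F (q.2 - 2) ≤ (q.1 : ℝ) ^ (-1 + ε) * (SST.nu q.1 q.2 * wx x q.1 P F) ∧
        LL 1 {p₁} {p₂, p₃} F (q.2 - 1) ≤ (q.1 : ℝ) ^ (-1 + ε) * (SST.nu q.1 q.2 * wx x q.1 P F)) := by
  have hθ := h.1
  have hθ1 := h.2.1
  obtain ⟨ε₁, hε₁⟩ : ∃ e : ℝ, e = ε / (8 * (|A| + 1)) := ⟨_, rfl⟩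
  have hε₁0 : 0 < ε₁ := by
    rw [hε₁]
    positivity
  obtain ⟨s, hs⟩ : ∃ s : ℝ, s = (√(yy x))⁻¹ := ⟨_, rfl⟩
  have hs0 : 0 ≤ s := by
    rw [hs]
    positivity
  obtain ⟨K₀, δ₀, M₀, hK₀, hδ₀, H₀⟩ := nf_up h hε₁0 3 0
  obtain ⟨K₁, δ₁, M₁, hK₁, hδ₁, H₁⟩ := nf_up h hε₁0 3 1
  obtain ⟨K₂, δ₂, M₂, hK₂, hδ₂, H₂⟩ := nf_up h hε₁0 3 2
  obtain ⟨K₃, δ₃, M₃, hK₃, hδ₃, H₃⟩ := seph h hε₁0 2 2 (by norm_num)
  obtain ⟨K₄, δ₄, M₄, hK₄, hδ₄, H₄⟩ := seph h hε₁0 2 1 le_rfl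
  obtain ⟨K₅, δ₅, M₅, hK₅, hδ₅, H₅⟩ := nu_gen h 1
  filter_upwards [win_ev hθ hθ1 A hδ₀ M₀, win_ev hθ hθ1 A hδ₁ M₁, win_ev hθ hθ1 A hδ₂ M₂,
    win_ev hθ hθ1 A hδ₃ M₃, win_ev hθ hθ1 A hδ₄ M₄, win_ev hθ hθ1 A hδ₅ M₅,
    pow_ev A hε hε₁ (2 ^ 1 * K₀ * s) θ, pow_ev A hε hε₁ (2 ^ 1 * K₁ * s) θ, pow_ev A hε hε₁ (2 ^ 2 * K₁ * s) θ,
    pow_ev A hε hε₁ (2 ^ 3 * K₂ * s) θ, pow_ev A hε hε₁ (2 ^ 2 * K₃ * s) θ,
    pow_ev A hε hε₁ (2 ^ 3 * (K₄ * K₅) * s) θ, nu_cmp h A hε₁0, RB.ge_ev θ 1]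
    with q a0 a1 a2 a3 a4 a5 b0 b1 b2 b3 b4 b5 c0 hn
  intro F P hF hF' hP hPA
  have hn1 : (1 : ℝ) ≤ q.1 := by exact_mod_cast hn
  have hlog : 0 ≤ log (q.1 : ℝ) := Real.log_nonneg hn1
  obtain ⟨hnF, w0, v0, -, u0⟩ := a0 F hF hF'
  obtain ⟨-, w1, v1, -, u1⟩ := a1 F hF hF'
  obtain ⟨-, w2, v2, -, u2⟩ := a2 F hF hF'
  obtain ⟨-, w3, v3, -, u3⟩ := a3 F hF hF'
  obtain ⟨-, w4, -, v4, u4⟩ := a4 F hF hF'
  obtain ⟨-, w5, v5, -, -⟩ := a5 F hF hF'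
  have hnF1 : (q.1 : ℝ) ≤ F := by exact_mod_cast hnF
  have hF2 : (F : ℝ) ≤ 2 * q.1 := by exact_mod_cast hF
  have hF0 : (0 : ℝ) < F := by linarith
  have hv : (((2 * q.1 - F : ℕ) : ℕ) : ℝ) ≤ A * log q.1 := by
    rw [Nat.cast_sub hF]
    push_cast
    linarith
  have hc := c0 F hF
  have b0' := b0 P _ hPA hv
  have b1' := b1 P _ hPA hv
  have b2' := b2 P _ hPA hv
  have b3' := b3 P _ hPA hv
  have b4' := b4 P _ hPA hv
  have b5' := b5 P _ hPA hv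
  rw [← hs] at hc
  have hN : 0 ≤ SST.nu q.1 q.2 := RB.nu_nn _ _
  have hG : 0 ≤ gam x ^ P := pow_nonneg (low_gam x).le _
  have hY : 0 ≤ √(yy x) ^ (2 * q.1 - F) := by positivity
  have hE : 0 ≤ exp (ε₁ * (P : ℝ)) := (Real.exp_pos _).le
  have hE' : 0 ≤ exp (ε₁ * ((2 * q.1 - F : ℕ) : ℝ)) := (Real.exp_pos _).le
  have hw : ∀ {δ : ℝ} {M : ℕ} {Q : Multiset ℕ} {G : ℕ}, M ≤ F → |2 * (G : ℝ) - θ * F| ≤ δ * F →
      A * log q.1 ≤ δ * F → Q.sum = P → (∀ r ∈ Q, 1 ≤ r) → Win θ δ M Q F G := by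
    intro δ M Q G h1 h2 h3 h4 h5
    refine ⟨h1, h2, ?_, h5⟩
    rw [h4]
    exact hPA.trans h3
  unfold wx
  refine ⟨⟨?_, ?_⟩, fun p₁ p₂ hp₁ hp₂ h12 => ⟨?_, ?_⟩, fun p₁ p₂ p₃ hp₁ hp₂ hp₃ h123 => ⟨?_, ?_⟩⟩
  · have h1 := H₀ {P} F q.2 (Multiset.singleton_ne_zero _) (by
        rw [Multiset.card_singleton]
        norm_num)
      (hw w0 v0 u0 (Multiset.sum_singleton P) (by
        intro r hr
        rw [Multiset.mem_singleton.1 hr]
        exact hP))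
    rw [Multiset.sum_singleton, Multiset.card_singleton] at h1
    exact nm_fin (a := 2 * 0) (b := 1) hn1 hnF1 hF2 (muG_nonneg _ _ _) hK₀.le hE hE' hG hY hs0 hN h1 hc b0'
      (by norm_num)
  · have h1 := H₁ {P} F q.2 (Multiset.singleton_ne_zero _) (by
        rw [Multiset.card_singleton]
        norm_num)
      (hw w1 v1 u1 (Multiset.sum_singleton P) (by
        intro r hr
        rw [Multiset.mem_singleton.1 hr]
        exact hP))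
    rw [Multiset.sum_singleton, Multiset.card_singleton] at h1
    exact nm_fin (a := 2 * 1) (b := 1) hn1 hnF1 hF2 (muG_nonneg _ _ _) hK₁.le hE hE' hG hY hs0 hN h1 hc b1'
      (by norm_num)
  · have hs' : ({p₁} + {p₂} : Multiset ℕ).sum = P := by
      rw [Multiset.sum_add, Multiset.sum_singleton, Multiset.sum_singleton, h12]
    have h1 := H₃ {p₁} {p₂} F q.2 (Multiset.singleton_ne_zero _) (Multiset.singleton_ne_zero _)
      (by rw [Multiset.card_singleton]; norm_num) (by rw [Multiset.card_singleton]; norm_num)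
      (hw w3 v3 u3 hs' (by
        intro r hr
        rcases Multiset.mem_add.1 hr with hr | hr
        · rw [Multiset.mem_singleton.1 hr]
          exact hp₁
        · rw [Multiset.mem_singleton.1 hr]
          exact hp₂))
    rw [hs', Multiset.card_singleton, Multiset.card_singleton] at h1
    exact nm_fin (a := 2 + 1) (b := 1 + 1) hn1 hnF1 hF2 (nm_LL _ _ _ _ _) hK₃.le hE hE' hG hY hs0 hN h1 hc b4'
      (by norm_num)
  · have hs' : ({p₁, p₂} : Multiset ℕ).sum = P := by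
      rw [Multiset.insert_eq_cons, Multiset.sum_cons, Multiset.sum_singleton, h12]
    have h1 := H₁ {p₁, p₂} F q.2 (Multiset.cons_ne_zero) (by
        rw [Multiset.insert_eq_cons, Multiset.card_cons, Multiset.card_singleton]
        norm_num)
      (hw w1 v1 u1 hs' (by
        intro r hr
        rw [Multiset.insert_eq_cons] at hr
        rcases Multiset.mem_cons.1 hr with hr | hr
        · rw [hr]
          exact hp₁
        · rw [Multiset.mem_singleton.1 hr]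
          exact hp₂))
    have hcd : Multiset.card ({p₁, p₂} : Multiset ℕ) = 1 + 1 := by
      rw [Multiset.insert_eq_cons, Multiset.card_cons, Multiset.card_singleton]
    rw [hs', hcd] at h1
    exact nm_fin (a := 2 * 1) (b := 1 + 1) hn1 hnF1 hF2 (muG_nonneg _ _ _) hK₁.le hE hE' hG hY hs0 hN h1 hc b2'
      (by norm_num)
  · have hs' : ({p₁, p₂, p₃} : Multiset ℕ).sum = P := by
      rw [Multiset.insert_eq_cons, Multiset.insert_eq_cons, Multiset.sum_cons, Multiset.sum_cons,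
        Multiset.sum_singleton, ← add_assoc p₁, h123]
    have hcd : Multiset.card ({p₁, p₂, p₃} : Multiset ℕ) = 1 + 2 := by
      rw [Multiset.insert_eq_cons, Multiset.insert_eq_cons, Multiset.card_cons, Multiset.card_cons,
        Multiset.card_singleton]
    have h1 := H₂ {p₁, p₂, p₃} F q.2 (Multiset.cons_ne_zero) (by
        rw [hcd])
      (hw w2 v2 u2 hs' (by
        intro r hr
        rw [Multiset.insert_eq_cons, Multiset.insert_eq_cons] at hr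
        rcases Multiset.mem_cons.1 hr with hr | hr
        · rw [hr]
          exact hp₁
        · rcases Multiset.mem_cons.1 hr with hr | hr
          · rw [hr]
            exact hp₂
          · rw [Multiset.mem_singleton.1 hr]
            exact hp₃))
    rw [hs', hcd] at h1
    exact nm_fin (a := 2 * 2) (b := 1 + 2) hn1 hnF1 hF2 (muG_nonneg _ _ _) hK₂.le hE hE' hG hY hs0 hN h1 hc b3'
      (by norm_num)
  · have hs' : ({p₁} + {p₂, p₃} : Multiset ℕ).sum = P := by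
      rw [Multiset.sum_add, Multiset.sum_singleton, Multiset.insert_eq_cons, Multiset.sum_cons,
        Multiset.sum_singleton, ← add_assoc p₁, h123]
    have hcd : Multiset.card ({p₂, p₃} : Multiset ℕ) = 2 := by
      rw [Multiset.insert_eq_cons, Multiset.card_cons, Multiset.card_singleton]
    have h1 := H₄ {p₁} {p₂, p₃} F (q.2 - 1) (Multiset.singleton_ne_zero _)
      (Multiset.cons_ne_zero)
      (by rw [Multiset.card_singleton]; norm_num) (by rw [hcd])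
      (hw w4 v4 u4 hs' (by
        intro r hr
        rcases Multiset.mem_add.1 hr with hr | hr
        · rw [Multiset.mem_singleton.1 hr]
          exact hp₁
        · rw [Multiset.insert_eq_cons] at hr
          rcases Multiset.mem_cons.1 hr with hr | hr
          · rw [hr]
            exact hp₂
          · rw [Multiset.mem_singleton.1 hr]
            exact hp₃))
    have h2 := H₅ F q.2 w5 v5
    rw [hs', Multiset.card_singleton, hcd] at h1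
    have h3 : (F : ℝ) ^ (2 + 2) * LL 1 {p₁} {p₂, p₃} F (q.2 - 1) ≤
        (K₄ * K₅) * exp (ε₁ * (P : ℝ)) * gam x ^ P * (F : ℝ) ^ (1 + 2) * SST.nu ((F + 1) / 2) q.2 := by
      calc (F : ℝ) ^ (2 + 2) * LL 1 {p₁} {p₂, p₃} F (q.2 - 1)
          = (F : ℝ) ^ 2 * ((F : ℝ) ^ (1 + 1) * LL 1 {p₁} {p₂, p₃} F (q.2 - 1)) := by ring
        _ ≤ (F : ℝ) ^ 2 * (K₄ * exp (ε₁ * (P : ℝ)) * gam x ^ P * (F : ℝ) ^ (1 + 2) *
              SST.nu ((F + 1) / 2) (q.2 - 1)) := mul_le_mul_of_nonneg_left h1 (by positivity)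
        _ = (K₄ * exp (ε₁ * (P : ℝ)) * gam x ^ P * (F : ℝ) ^ (1 + 2)) *
              ((F : ℝ) ^ (2 * 1) * SST.nu ((F + 1) / 2) (q.2 - 1)) := by ring
        _ ≤ (K₄ * exp (ε₁ * (P : ℝ)) * gam x ^ P * (F : ℝ) ^ (1 + 2)) * (K₅ * SST.nu ((F + 1) / 2) q.2) := by
            refine mul_le_mul_of_nonneg_left h2 ?_
            positivity
        _ = _ := by ring
    exact nm_fin (a := 2 + 2) (b := 1 + 2) hn1 hnF1 hF2 (nm_LL _ _ _ _ _) (by positivity) hE hE' hG hY hs0 hN h3 hc b5'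
      (by norm_num)

end SYS.TC
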