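import Pool.Agent.SYS.TC.Trm
import Pool.Agent.SYS.TC.Num

/-!
# SYS-TC-Inp: the fields `goal` and `term` of `CH.Inp`

`cnt_ext`: number of triangulations containing a region; `cnt_trm`: number with a terminal event at a gate; `cnt_inp`: the fields.
-/

namespace SYS.TC

open Classical SST SYS.Part SYS.Num SYS.CH Real Filter Topology

private theorem ip_wt {x : ℝ} {n F b : ℕ} (hF : F ≤ 2 * n) : wtF x n F b = ((3 * F).factorial : ℝ) * wx x n b F := by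
  unfold wtF wx gam
  have h1 : 0 < √(yy x) := Real.sqrt_pos.2 (yy_pos x)
  have h2 : ((2 * n : ℤ) - F - b) = ((2 * n - F : ℕ) : ℤ) - b := by omega
  rw [h2, zpow_sub₀ h1.ne', zpow_natCast, zpow_natCast, div_pow]
  ring

private theorem ip_wx {x : ℝ} {n F b : ℕ} : wx x n (b + 2) F = gam x ^ 2 * wx x n b F := by
  unfold wx
  rw [pow_add]
  ring

private theorem ip_pow (A K ε θ : ℝ) (hε : 0 < ε) (τ : ℕ) :
    ∀ᶠ q in Num.Fth θ, K * (|A| * log ((q : ℕ × ℕ).1 : ℝ)) ^ τ ≤ (q.1 : ℝ) ^ ε := by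
  have h1 : Tendsto (fun q : ℕ × ℕ => (q.1 : ℝ)) (Num.Fth θ) atTop := RB.fst_atTop θ
  have h2 : (fun y : ℝ => Real.log y ^ τ) =o[atTop] fun y => y ^ ε := by
    have h3 := isLittleO_log_rpow_rpow_atTop (τ : ℝ) hε
    refine h3.congr' ?_ (Filter.EventuallyEq.refl _ _)
    filter_upwards with y
    rw [Real.rpow_natCast]
  have h3 := (h2.comp_tendsto h1).def (c := 1 / (|K| * |A| ^ τ + 1)) (by positivity)
  filter_upwards [h3, RB.ge_ev θ 1] with q hq hn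
  have hn1 : (1 : ℝ) ≤ q.1 := by exact_mod_cast hn
  have hl : 0 ≤ log (q.1 : ℝ) := Real.log_nonneg hn1
  have hp : 0 ≤ (q.1 : ℝ) ^ ε := Real.rpow_nonneg (by linarith) ε
  have h4 : log (q.1 : ℝ) ^ τ ≤ 1 / (|K| * |A| ^ τ + 1) * (q.1 : ℝ) ^ ε := by
    have h5 : ‖log (q.1 : ℝ) ^ τ‖ ≤ 1 / (|K| * |A| ^ τ + 1) * ‖(q.1 : ℝ) ^ ε‖ := hq
    rw [Real.norm_of_nonneg (pow_nonneg hl τ), Real.norm_of_nonneg hp] at h5
    exact h5
  have hc : 0 ≤ |K| * |A| ^ τ := by positivity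
  calc K * (|A| * log (q.1 : ℝ)) ^ τ ≤ |K| * (|A| * log (q.1 : ℝ)) ^ τ :=
        mul_le_mul_of_nonneg_right (le_abs_self K) (by positivity)
    _ = |K| * |A| ^ τ * log (q.1 : ℝ) ^ τ := by
        rw [mul_pow]
        ring
    _ ≤ |K| * |A| ^ τ * (1 / (|K| * |A| ^ τ + 1) * (q.1 : ℝ) ^ ε) := mul_le_mul_of_nonneg_left h4 hc
    _ = |K| * |A| ^ τ / (|K| * |A| ^ τ + 1) * (q.1 : ℝ) ^ ε := by ring
    _ ≤ 1 * (q.1 : ℝ) ^ ε := by
        refine mul_le_mul_of_nonneg_right ?_ hp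
        rw [div_le_one (by positivity)]
        linarith
    _ = (q.1 : ℝ) ^ ε := one_mul _

/-- Number of triangulations which contain a region. -/
theorem cnt_ext {θ x : ℝ} (h : Par θ x) (A : ℝ) {ε : ℝ} (hε : 0 < ε) : ∀ᶠ q in Num.Fth θ, ∀ (c F : ℕ)
    (X : Part (Fin (6 * (q : ℕ × ℕ).1))), c ≤ 1 → Sc c X F → 2 * (q.1 : ℝ) ≤ F + A * log q.1 →
      (X.B.ncard : ℝ) ≤ A * log q.1 →
      (({T | T ∈ X.Ext q.2 ∧ X.HConn T}.ncard : ℕ) : ℝ) ≤
        (q.1 : ℝ) ^ (1 - (c : ℝ) + ε) * (SST.nu q.1 q.2 * wtF x q.1 F X.B.ncard) := by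
  filter_upwards [num_cnt h A hε, RB.ge_ev' h.1 2] with q h1 h2
  intro c F X hc hS hF hB
  obtain ⟨hcon, l, P, hty, hlen⟩ := hS
  have hF2 : F ≤ 2 * q.1 := by
    have h3 := hty.vol
    rw [Nat.card_fin] at h3
    omega
  have hPB : P.sum = X.B.ncard := by
    rw [hl_card hty.hl, hty.per]
  have hgc : q.2 = (q.2 - c) + c := by omega
  have h3 := typ_card (h := q.2 - c) hty
  rw [← hgc] at h3
  rw [h3, ip_wt hF2]
  have hlP : P.length = l.length := by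
    rw [← hty.per, List.length_map]
  have hpos : ∀ r ∈ P, 1 ≤ r := by
    intro r hr
    rw [← hty.per, List.mem_map] at hr
    obtain ⟨d, hd, rfl⟩ := hr
    exact per_pos X (hty.hl.1 d hd)
  have hfac : (0 : ℝ) ≤ ((3 * F).factorial : ℝ) := Nat.cast_nonneg _
  have key : muG (P : Multiset ℕ) F (q.2 - c) ≤ (q.1 : ℝ) ^ (1 - (c : ℝ) + ε) *
      (SST.nu q.1 q.2 * wx x q.1 X.B.ncard F) := by
    rcases Nat.lt_or_ge c 1 with hc0 | hc1
    · have hc0' : c = 0 := by omega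
      subst hc0'
      have h4 : P.length = 1 := by omega
      obtain ⟨p, rfl⟩ := List.length_eq_one_iff.1 h4
      rw [List.sum_singleton] at hPB
      have h5 := (h1 F X.B.ncard hF2 hF (by rw [← hPB]; exact hpos p (by simp)) hB).1.1
      rw [Nat.sub_zero, Nat.cast_zero, sub_zero]
      rw [← hPB] at h5 ⊢
      exact h5
    · have hc1' : c = 1 := by omega
      subst hc1'
      have h4 : P.length = 2 := by omega
      obtain ⟨p, r, rfl⟩ := List.length_eq_two.1 h4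
      have h6 : p + r = X.B.ncard := by
        simp only [List.sum_cons, List.sum_nil] at hPB
        omega
      have hp := hpos p (by simp)
      have hr := hpos r (by simp)
      have h5 := ((h1 F X.B.ncard hF2 hF (by omega) hB).2.1 p r hp hr h6).2
      rw [Nat.cast_one, sub_self, zero_add]
      exact h5
  calc ((3 * F).factorial : ℝ) * muG (P : Multiset ℕ) F (q.2 - c)
      ≤ ((3 * F).factorial : ℝ) * ((q.1 : ℝ) ^ (1 - (c : ℝ) + ε) *
      (SST.nu q.1 q.2 * wx x q.1 X.B.ncard F)) := mul_le_mul_of_nonneg_left key hfac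
    _ = _ := by ring

private theorem ip_sum {p : ℕ} {f : ℕ → ℝ} {b : ℝ} (hb : 0 ≤ b) (h : ∀ i ∈ Finset.range p, Sp p i → f i ≤ b) :
    (∑ i ∈ Finset.range p, if Sp p i then f i else 0) ≤ p * b := by
  have h1 : (∑ i ∈ Finset.range p, if Sp p i then f i else 0) ≤ ∑ _i ∈ Finset.range p, b := by
    refine Finset.sum_le_sum fun i hi => ?_
    split_ifs with h2
    · exact h i hi h2
    · exact hb
  rw [Finset.sum_const, Finset.card_range, nsmul_eq_mul] at h1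
  exact h1

/-- Number of triangulations with a terminal event. -/
theorem cnt_trm {θ x : ℝ} (h : Par θ x) (A : ℝ) {ε : ℝ} (hε : 0 < ε) : ∀ᶠ q in Num.Fth θ, ∀ (c F : ℕ)
    (Y : Part (Fin (6 * (q : ℕ × ℕ).1))) (y : Fin (6 * q.1)), c ≤ 1 → Sc c Y F → y ∈ Y.B →
      2 * (q.1 : ℝ) ≤ F + A * log q.1 → (Y.B.ncard : ℝ) ≤ A * log q.1 →
      (({T | T ∈ Y.Ext q.2 ∧ Y.HConn T ∧ Tm c T Y y}.ncard : ℕ) : ℝ) ≤
        (q.1 : ℝ) ^ (-1 + ε) * (SST.nu q.1 q.2 * wtF x q.1 F Y.B.ncard) := by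
  have hgam := low_gam x
  filter_upwards [num_cnt h A (show 0 < ε / 2 by positivity), RB.ge_ev' h.1 2, RB.ge_ev θ 1,
    ip_pow A (4 * (gam x ^ 2)⁻¹) (ε / 2) θ (by positivity) 1,
    win_ev h.1 h.2.1 A (show (0 : ℝ) < 1 by norm_num) 1] with q h1 h2 h3 h4 h0
  intro c F Y y hc hS hy hF hB
  obtain ⟨hcon, l, P, hty, hlen⟩ := hS
  have hn1 : (1 : ℝ) ≤ q.1 := by exact_mod_cast h3
  have hn0 : (0 : ℝ) < q.1 := by linarith
  have hF2 : F ≤ 2 * q.1 := by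
    have h3 := hty.vol
    rw [Nat.card_fin] at h3
    omega
  have hF1 : 1 ≤ F := (h0 F hF2 hF).2.1
  have hPB : P.sum = Y.B.ncard := by
    rw [hl_card hty.hl, hty.per]
  have hN : 0 ≤ SST.nu q.1 q.2 := RB.nu_nn _ _
  have hfac : (0 : ℝ) ≤ ((3 * F).factorial : ℝ) := Nat.cast_nonneg _
  have hBA : (Y.B.ncard : ℝ) ≤ |A| * log q.1 :=
    hB.trans (mul_le_mul_of_nonneg_right (le_abs_self A) (Real.log_nonneg hn1))
  rw [ip_wt hF2]
  -- the general bound of one term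
  obtain ⟨b, hb⟩ : ∃ b : ℕ → ℝ, b = fun m => (q.1 : ℝ) ^ (-1 + ε / 2) * (SST.nu q.1 q.2 * wx x q.1 m F) := ⟨_, rfl⟩
  have hb0 : ∀ m, 0 ≤ b m := by
    intro m
    rw [hb]
    have := (wx_pos x q.1 m F).le
    positivity
  -- it is enough to bound by `4 |B| b (|B| - 2)`
  have fin : ∀ m : ℕ, m + 2 = Y.B.ncard →
      ((3 * F).factorial : ℝ) * (4 * (Y.B.ncard : ℝ) * b m) ≤
        (q.1 : ℝ) ^ (-1 + ε) * (SST.nu q.1 q.2 * (((3 * F).factorial : ℝ) * wx x q.1 Y.B.ncard F)) := by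
    intro m hm
    have e1 : wx x q.1 m F = (gam x ^ 2)⁻¹ * wx x q.1 Y.B.ncard F := by
      rw [← hm, ip_wx, ← mul_assoc, inv_mul_cancel₀ (by positivity), one_mul]
    have e2 : (q.1 : ℝ) ^ (-1 + ε) = (q.1 : ℝ) ^ (-1 + ε / 2) * (q.1 : ℝ) ^ (ε / 2) := by
      rw [← Real.rpow_add hn0]
      ring_nf
    rw [hb]
    dsimp only
    rw [e1, e2]
    have hw := (wx_pos x q.1 Y.B.ncard F).le
    have e3 : 4 * (Y.B.ncard : ℝ) * (gam x ^ 2)⁻¹ ≤ (q.1 : ℝ) ^ (ε / 2) := by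
      refine le_trans ?_ h4
      rw [pow_one]
      calc 4 * (Y.B.ncard : ℝ) * (gam x ^ 2)⁻¹ = 4 * (gam x ^ 2)⁻¹ * (Y.B.ncard : ℝ) := by ring
        _ ≤ 4 * (gam x ^ 2)⁻¹ * (|A| * log q.1) := mul_le_mul_of_nonneg_left hBA (by positivity)
    have e4 : 0 ≤ (q.1 : ℝ) ^ (-1 + ε / 2) := Real.rpow_nonneg hn0.le _
    calc ((3 * F).factorial : ℝ) * (4 * (Y.B.ncard : ℝ) * ((q.1 : ℝ) ^ (-1 + ε / 2) *
          (SST.nu q.1 q.2 * ((gam x ^ 2)⁻¹ * wx x q.1 Y.B.ncard F))))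
        = (4 * (Y.B.ncard : ℝ) * (gam x ^ 2)⁻¹) * ((q.1 : ℝ) ^ (-1 + ε / 2) *
          (SST.nu q.1 q.2 * (((3 * F).factorial : ℝ) * wx x q.1 Y.B.ncard F))) := by ring
      _ ≤ (q.1 : ℝ) ^ (ε / 2) * ((q.1 : ℝ) ^ (-1 + ε / 2) *
          (SST.nu q.1 q.2 * (((3 * F).factorial : ℝ) * wx x q.1 Y.B.ncard F))) :=
          mul_le_mul_of_nonneg_right e3 (by positivity)
      _ = _ := by ring
  have hBle : ∀ m : ℕ, m + 2 = Y.B.ncard → (m : ℝ) ≤ A * log q.1 := by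
    intro m hm
    refine le_trans ?_ hB
    exact_mod_cast (by omega : m ≤ Y.B.ncard)
  rcases Nat.lt_or_ge c 1 with hc0 | hc1
  · have hc0' : c = 0 := by omega
    subst hc0'
    obtain ⟨a, rfl⟩ := List.length_eq_one_iff.1 (show l.length = 1 by omega)
    obtain ⟨e, he, h5⟩ := hty.hl.2.2 y hy
    rw [List.mem_singleton] at he
    subst he
    obtain ⟨p, rfl⟩ : ∃ p, P = [p] := by
      have h6 := hty.per
      rw [List.map_cons, List.map_nil] at h6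
      exact ⟨_, h6.symm⟩
    have hty' := typ_repl hty hy h5
    rw [List.sum_singleton] at hPB
    have h6 := trm0 (g := q.2) hty'
    refine h6.trans ?_
    by_cases hp2 : 3 ≤ p
    · have h7 := h1 F (p - 2) hF2 hF (by omega) (hBle _ (by omega))
      have h8 : (∑ i ∈ Finset.range p, if Sp p i then LL 1 {i} {p - 2 - i} F q.2 else 0) ≤ p * b (p - 2) := by
        refine ip_sum (hb0 _) fun i _ hi => ?_
        rw [LL_one_two, hb]
        exact (h7.2.1 i (p - 2 - i) hi.1 (by have := hi.2; omega) (by have := hi.2; omega)).1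
      refine le_trans (mul_le_mul_of_nonneg_left ?_ hfac) (fin (p - 2) (by omega))
      refine h8.trans ?_
      rw [← hPB]
      have h9 := hb0 (p - 2)
      have h10 : (0 : ℝ) ≤ (p : ℝ) := Nat.cast_nonneg p
      nlinarith [mul_nonneg h10 h9]
    · have h8 : (∑ i ∈ Finset.range p, if Sp p i then LL 1 {i} {p - 2 - i} F q.2 else 0) = 0 := by
        refine Finset.sum_eq_zero fun i _ => ?_
        rw [if_neg]
        rintro ⟨h9, h10⟩
        omega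
      rw [h8, mul_zero]
      have hw := (wx_pos x q.1 Y.B.ncard F).le
      have e4 : 0 ≤ (q.1 : ℝ) ^ (-1 + ε) := Real.rpow_nonneg hn0.le _
      positivity
  · have hc1' : c = 1 := by omega
    subst hc1'
    obtain ⟨p, z, r, hty', hpr⟩ : ∃ (p : ℕ) (z : Fin (6 * q.1)) (r : ℕ), Y.Typ [y, z] [p, r] F 1 ∧
        p + r = Y.B.ncard := by
      obtain ⟨a, a', rfl⟩ := List.length_eq_two.1 (show l.length = 2 by omega)
      have hper := hty.per
      rw [List.map_cons, List.map_cons, List.map_nil] at hper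
      subst hper
      obtain ⟨e, he, h5⟩ := hty.hl.2.2 y hy
      have he' : e = a ∨ e = a' := by simpa using he
      simp only [List.sum_cons, List.sum_nil] at hPB
      rcases he' with h6 | h6
      · rw [h6] at h5
        exact ⟨_, a', _, typ_repl hty hy h5, by omega⟩
      · rw [h6] at h5
        have h7 := typ_perm hty (l' := [a', a]) (List.Perm.swap a' a [])
        simp only [List.map_cons, List.map_nil] at h7
        exact ⟨_, a, _, typ_repl h7 hy h5, by omega⟩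
    have h6 := trm1 (g := q.2) hty' h2 hF1
    refine h6.trans ?_
    have hpp : 1 ≤ p ∧ 1 ≤ r := by
      have h7 := hty'.per
      simp only [List.map_cons, List.map_nil, List.cons.injEq] at h7
      rw [← h7.1, ← h7.2.1]
      exact ⟨per_pos Y (hty'.hl.1 y (by simp)), per_pos Y (hty'.hl.1 z (by simp))⟩
    by_cases hp2 : 3 ≤ p + r
    · have h7 := h1 F (p + r - 2) hF2 hF (by omega) (hBle _ (by omega))
      have h8 : (∑ i ∈ Finset.range p, (if Sp p i then muG {i, p - 2 - i, r} F (q.2 - 2) +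
          (LL 1 {i} {p - 2 - i, r} F (q.2 - 1) + LL 1 {p - 2 - i} {i, r} F (q.2 - 1)) else 0)) ≤
          p * (3 * b (p + r - 2)) := by
        refine ip_sum (by have := hb0 (p + r - 2); positivity) fun i _ hi => ?_
        have a1 := h7.2.2 i (p - 2 - i) r hi.1 (by have := hi.2; omega) hpp.2 (by have := hi.2; omega)
        have a2 := (h7.2.2 (p - 2 - i) i r (by have := hi.2; omega) hi.1 hpp.2 (by have := hi.2; omega)).2
        rw [hb]
        dsimp only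
        linarith [a1.1, a1.2, a2]
      have h9 : (r : ℝ) * (if 2 < p + r then muG {p + r - 2} F (q.2 - 1) else 0) ≤ r * b (p + r - 2) := by
        rw [if_pos (by omega)]
        refine mul_le_mul_of_nonneg_left ?_ (Nat.cast_nonneg r)
        rw [hb]
        exact h7.1.2
      refine le_trans (mul_le_mul_of_nonneg_left ?_ hfac) (fin (p + r - 2) (by omega))
      refine (add_le_add h8 h9).trans ?_
      rw [← hpr]
      push_cast
      have h10 := hb0 (p + r - 2)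
      have h11 : (0 : ℝ) ≤ (p : ℝ) := Nat.cast_nonneg p
      have h12 : (0 : ℝ) ≤ (r : ℝ) := Nat.cast_nonneg r
      nlinarith [mul_nonneg h11 h10, mul_nonneg h12 h10]
    · have h8 : (∑ i ∈ Finset.range p, (if Sp p i then muG {i, p - 2 - i, r} F (q.2 - 2) +
          (LL 1 {i} {p - 2 - i, r} F (q.2 - 1) + LL 1 {p - 2 - i} {i, r} F (q.2 - 1)) else 0)) = 0 := by
        refine Finset.sum_eq_zero fun i _ => ?_
        rw [if_neg]
        rintro ⟨h9, h10⟩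
        omega
      rw [h8, if_neg (by omega), mul_zero, add_zero, mul_zero]
      have hw := (wx_pos x q.1 Y.B.ncard F).le
      have e4 : 0 ≤ (q.1 : ℝ) ^ (-1 + ε) := Real.rpow_nonneg hn0.le _
      positivity

/-- The fields `goal` and `term` of `CH.Inp`. -/
theorem cnt_inp {θ x : ℝ} (h : Par θ x) (A : ℝ) {ε : ℝ} (hε : 0 < ε) (τ : ℕ) : ∀ᶠ q in Num.Fth θ, ∀ Pm Vm : ℕ,
    (Pm : ℝ) ≤ A * log (q : ℕ × ℕ).1 → (Vm : ℝ) ≤ A * log q.1 →
    (∀ (c F : ℕ) (X : Part (Fin (6 * q.1))), c ≤ 1 → 2 ≤ c + τ → Sc c X F → 2 * q.1 ≤ F + Vm → X.B.ncard ≤ Pm →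
      (X.R.ncard : ℝ) ^ τ * ({T | T ∈ X.Ext q.2 ∧ X.HConn T}.ncard : ℝ) ≤
        (q.1 : ℝ) ^ ((τ : ℝ) - 1 + ε) * SST.nu q.1 q.2 * wtF x q.1 F X.B.ncard) ∧
    (∀ (c F : ℕ) (Y : Part (Fin (6 * q.1))) (y : Fin (6 * q.1)), c ≤ 1 → Sc c Y F → y ∈ Y.B → 2 * q.1 ≤ F + Vm →
      Y.B.ncard ≤ Pm → ((6 * q.1 : ℕ) : ℝ) ^ τ * ({T | T ∈ Y.Ext q.2 ∧ Y.HConn T ∧ Tm c T Y y}.ncard : ℝ) ≤
        (q.1 : ℝ) ^ ((τ : ℝ) - 1 + ε) * SST.nu q.1 q.2 * wtF x q.1 F Y.B.ncard) := by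
  filter_upwards [cnt_ext h A (show 0 < ε / 2 by positivity), cnt_trm h A (show 0 < ε / 2 by positivity), RB.ge_ev θ 1,
    ip_pow (3 * A) 1 (ε / 2) θ (by positivity) τ, ip_pow A (6 ^ τ) (ε / 2) θ (by positivity) 0] with q h1 h2 h3 h4 h5
  intro Pm Vm hPm hVm
  have hn1 : (1 : ℝ) ≤ q.1 := by exact_mod_cast h3
  have hn0 : (0 : ℝ) < q.1 := by linarith
  have hlog : 0 ≤ log (q.1 : ℝ) := Real.log_nonneg hn1
  have hN : 0 ≤ SST.nu q.1 q.2 := RB.nu_nn _ _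
  have hwt : ∀ F b : ℕ, 0 ≤ wtF x q.1 F b := by
    intro F b
    unfold wtF
    have h6 : 0 ≤ AA x := (low_AA x).1.le
    positivity
  have hV : ∀ F : ℕ, 2 * q.1 ≤ F + Vm → 2 * (q.1 : ℝ) ≤ F + A * log q.1 := by
    intro F hF
    have h6 : 2 * (q.1 : ℝ) ≤ F + Vm := by exact_mod_cast hF
    linarith
  have hB : ∀ m : ℕ, m ≤ Pm → (m : ℝ) ≤ A * log q.1 := by
    intro m hm
    have h6 : (m : ℝ) ≤ Pm := by exact_mod_cast hm
    linarith
  constructor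
  · intro c F X hc hτ hS hF hBX
    have h6 := h1 c F X hc hS (hV F hF) (hB _ hBX)
    have hR : (X.R.ncard : ℝ) ≤ |3 * A| * log q.1 := by
      obtain ⟨-, l, P, hty, -⟩ := hS
      have h7 := hty.vol
      rw [Nat.card_fin] at h7
      have h8 : X.R.ncard ≤ 3 * Vm := by omega
      have h9 : (X.R.ncard : ℝ) ≤ 3 * Vm := by exact_mod_cast h8
      have h10 : 3 * A * log q.1 ≤ |3 * A| * log q.1 := mul_le_mul_of_nonneg_right (le_abs_self _) hlog
      linarith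
    have hRτ : (X.R.ncard : ℝ) ^ τ ≤ (q.1 : ℝ) ^ (ε / 2) := by
      refine (pow_le_pow_left₀ (Nat.cast_nonneg _) hR τ).trans ?_
      rw [one_mul] at h4
      exact h4
    have h7 : (q.1 : ℝ) ^ (ε / 2) * (q.1 : ℝ) ^ (1 - (c : ℝ) + ε / 2) ≤ (q.1 : ℝ) ^ ((τ : ℝ) - 1 + ε) := by
      rw [← Real.rpow_add hn0]
      refine Real.rpow_le_rpow_of_exponent_le hn1 ?_
      have h8 : (2 : ℝ) ≤ c + τ := by exact_mod_cast hτ
      linarith
    calc (X.R.ncard : ℝ) ^ τ * ({T | T ∈ X.Ext q.2 ∧ X.HConn T}.ncard : ℝ)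
        ≤ (q.1 : ℝ) ^ (ε / 2) * ((q.1 : ℝ) ^ (1 - (c : ℝ) + ε / 2) * (SST.nu q.1 q.2 * wtF x q.1 F X.B.ncard)) :=
          mul_le_mul hRτ h6 (Nat.cast_nonneg _) (Real.rpow_nonneg hn0.le _)
      _ = ((q.1 : ℝ) ^ (ε / 2) * (q.1 : ℝ) ^ (1 - (c : ℝ) + ε / 2)) * (SST.nu q.1 q.2 * wtF x q.1 F X.B.ncard) := by
          ring
      _ ≤ (q.1 : ℝ) ^ ((τ : ℝ) - 1 + ε) * (SST.nu q.1 q.2 * wtF x q.1 F X.B.ncard) :=
          mul_le_mul_of_nonneg_right h7 (mul_nonneg hN (hwt _ _))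
      _ = _ := by ring
  · intro c F Y y hc hS hy hF hBY
    have h6 := h2 c F Y y hc hS hy (hV F hF) (hB _ hBY)
    rw [pow_zero, mul_one] at h5
    have h7 : ((6 * q.1 : ℕ) : ℝ) ^ τ * (q.1 : ℝ) ^ (-1 + ε / 2) ≤ (q.1 : ℝ) ^ ((τ : ℝ) - 1 + ε) := by
      have e1 : (q.1 : ℝ) ^ ((τ : ℝ) - 1 + ε) = (q.1 : ℝ) ^ (ε / 2) * ((q.1 : ℝ) ^ τ * (q.1 : ℝ) ^ (-1 + ε / 2)) := by
        rw [← Real.rpow_natCast, ← Real.rpow_add hn0, ← Real.rpow_add hn0]
        ring_nf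
      rw [e1]
      push_cast
      rw [mul_pow, mul_assoc]
      refine mul_le_mul_of_nonneg_right h5 ?_
      have := Real.rpow_nonneg hn0.le (-1 + ε / 2)
      positivity
    calc ((6 * q.1 : ℕ) : ℝ) ^ τ * ({T | T ∈ Y.Ext q.2 ∧ Y.HConn T ∧ Tm c T Y y}.ncard : ℝ)
        ≤ ((6 * q.1 : ℕ) : ℝ) ^ τ * ((q.1 : ℝ) ^ (-1 + ε / 2) * (SST.nu q.1 q.2 * wtF x q.1 F Y.B.ncard)) :=
          mul_le_mul_of_nonneg_left h6 (by positivity)
      _ = (((6 * q.1 : ℕ) : ℝ) ^ τ * (q.1 : ℝ) ^ (-1 + ε / 2)) * (SST.nu q.1 q.2 * wtF x q.1 F Y.B.ncard) := by ring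
      _ ≤ (q.1 : ℝ) ^ ((τ : ℝ) - 1 + ε) * (SST.nu q.1 q.2 * wtF x q.1 F Y.B.ncard) :=
          mul_le_mul_of_nonneg_right h7 (mul_nonneg hN (hwt _ _))
      _ = _ := by ring

end SYS.TC
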