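import Pool.Agent.SYS.TC.SepG

/-!
# SYS-TC-Sep: numbers of separations at a gate (regions with one or two holes)
-/

namespace SYS.TC

open Classical SST SYS.Part SYS.Num

variable {n g : ℕ}

private theorem s_split {S : Part (Fin (6 * n))} {T : Tri (Fin (6 * n))}
    {x y zu zv : Fin (6 * n)} {u v : List (Fin (6 * n))}
    (hx : x ∈ S.B) (hy : y ∈ S.B) (hw : S.hw x = x :: (zu :: u ++ y :: zv :: v))
    (hzuB : zu ∈ (S.glue x y hx hy).B) (hzvB : zv ∈ (S.glue x y hx hy).B)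
    (hT : T ∈ S.Ext g) (hcn : S.HConn T) (hTx : T.a x = y) (hnc : ¬ (S.glue x y hx hy).HConn T) :
    ¬ (S.glue x y hx hy).Hc T zu zv ∧
      ∀ e ∈ (S.glue x y hx hy).X, (S.glue x y hx hy).Hc T zu e ∨ (S.glue x y hx hy).Hc T zv e := by
  have hu : ∀ e ∈ zu :: u, (S.glue x y hx hy).Hc T zu e := by
    intro e he
    refine hc_hole hzuB ?_
    rw [hw_glue_split_left S hx hy (u := zu :: u) (v := zv :: v) hw rfl]
    exact he
  have hv : ∀ e ∈ zv :: v, (S.glue x y hx hy).Hc T zv e := by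
    intro e he
    refine hc_hole hzvB ?_
    rw [hw_glue_split_right S hx hy (u := zu :: u) (v := zv :: v) hw rfl]
    exact he
  have hsplit : ∀ d ∈ (S.glue x y hx hy).X, ∀ e ∈ (S.glue x y hx hy).X,
      (S.glue x y hx hy).Hc T d e ∨
      ((S.glue x y hx hy).Hc T zu d ∧ (S.glue x y hx hy).Hc T zv e) ∨
      ((S.glue x y hx hy).Hc T zv d ∧ (S.glue x y hx hy).Hc T zu e) := by
    intro d hd e he
    have hXS : ∀ d, d ∈ (S.glue x y hx hy).X → d ∈ S.X := by
      intro d hd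
      rcases hd with h | h
      · rw [glue_R] at h
        exact Or.inl h
      · right
        have hxy : x ≠ y := by
          have hn := hw_nodup S hx
          rw [hw, List.nodup_cons] at hn
          intro h3
          exact hn.1 (by rw [h3]; simp)
        rw [glue_B S hx hy hxy] at h
        exact h.1
    rcases (hc_glue_split hT.2 hx hy hTx hw hd he).1 (hcn d (hXS d hd) e (hXS e he)) with
      h | ⟨⟨r, hr, h3⟩, r', hr', h4⟩ | ⟨⟨r, hr, h3⟩, r', hr', h4⟩
    · exact Or.inl h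
    · exact Or.inr (Or.inl ⟨hc_trans (hu r hr) h3, hc_trans (hv r' hr') h4⟩)
    · exact Or.inr (Or.inr ⟨hc_trans (hv r hr) h3, hc_trans (hu r' hr') h4⟩)
  have hne : ¬ (S.glue x y hx hy).Hc T zu zv := by
    intro h
    apply hnc
    intro d hd e he
    rcases hsplit d hd e he with h3 | ⟨h3, h4⟩ | ⟨h3, h4⟩
    · exact h3
    · exact hc_trans (hc_symm h3) (hc_trans h h4)
    · exact hc_trans (hc_symm h3) (hc_trans (hc_symm h) h4)
  refine ⟨hne, fun e he => ?_⟩
  rcases hsplit zu (Or.inr hzuB) e he with h | ⟨-, h⟩ | ⟨h, -⟩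
  · exact Or.inl h
  · exact Or.inr h
  · exact absurd (hc_symm h) hne

private theorem s_word {S : Part (Fin (6 * n))} {x : Fin (6 * n)} {p q1 q2 : ℕ} (hx : x ∈ S.B) (hper : S.per x = p)
    (h1 : 1 ≤ q1) (h2 : 1 ≤ q2) (hp : q1 + q2 + 2 = p) :
    ∃ (zu y zv : Fin (6 * n)) (u v : List (Fin (6 * n))), S.hw x = x :: (zu :: u ++ y :: zv :: v) ∧
      (zu :: u).length = q1 ∧ (zv :: v).length = q2 := by
  have hlen := hw_length S hx
  obtain ⟨w, hw⟩ := hw_cons S hx
  rw [hw, List.length_cons, hper] at hlen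
  obtain ⟨u, y, v, hwu, hu, hv⟩ : ∃ u y v, w = u ++ y :: v ∧ u.length = q1 ∧ v.length = q2 := by
    have h5 : (w.drop q1).length = q2 + 1 := by
      rw [List.length_drop]
      omega
    cases hd : w.drop q1 with
    | nil =>
      rw [hd, List.length_nil] at h5
      omega
    | cons y v =>
      refine ⟨w.take q1, y, v, ?_, ?_, ?_⟩
      · rw [← hd, List.take_append_drop]
      · rw [List.length_take]
        omega
      · rw [hd, List.length_cons] at h5
        omega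
  subst hwu
  obtain ⟨zu, u', rfl⟩ : ∃ z u', u = z :: u' := by
    cases u with
    | nil =>
      rw [List.length_nil] at hu
      omega
    | cons z u' => exact ⟨z, u', rfl⟩
  obtain ⟨zv, v', rfl⟩ : ∃ z v', v = z :: v' := by
    cases v with
    | nil =>
      rw [List.length_nil] at hv
      omega
    | cons z v' => exact ⟨z, v', rfl⟩
  exact ⟨zu, y, zv, u', v', hw, hu, hv⟩

/-- What a separation gives for the glued region. -/
private theorem s_data {S : Part (Fin (6 * n))} {T : Tri (Fin (6 * n))}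
    {x y zu zv : Fin (6 * n)} {u v u0 v0 : List (Fin (6 * n))}
    (hx : x ∈ S.B) (hy : y ∈ S.B) (hw : S.hw x = x :: (zu :: u ++ y :: zv :: v))
    (hzuB : zu ∈ (S.glue x y hx hy).B) (hzvB : zv ∈ (S.glue x y hx hy).B)
    (hT : T ∈ S.Ext g) (hcn : S.HConn T) (hs : S.Sep T x u0 v0) (hu0 : u0.length = (zu :: u).length) :
    T ∈ (S.glue x y hx hy).Ext g ∧ ¬ (S.glue x y hx hy).Hc T zu zv ∧
      (∀ e ∈ (S.glue x y hx hy).X, (S.glue x y hx hy).Hc T zu e ∨ (S.glue x y hx hy).Hc T zv e) ∧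
      (∀ m, ¬ (S.glue x y hx hy).IsDisc T zu m) ∧ ∀ m, ¬ (S.glue x y hx hy).IsDisc T zv m := by
  obtain ⟨-, -, hw0, hx0, hy0, hn0, hd1, hd2⟩ := hs
  rw [hw] at hw0
  have e1 := (List.cons.inj hw0).2
  obtain ⟨e2, e3⟩ := List.append_inj e1 hu0.symm
  obtain ⟨e4, e5⟩ := List.cons.inj e3
  have hgl : S.glue x (T.a x) hx0 hy0 = S.glue x y hx hy := by
    have : ∀ (y' : Fin (6 * n)) (hy' : y' ∈ S.B), y = y' →
        S.glue x y' hx0 hy' = S.glue x y hx hy := by
      rintro _ _ rfl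
      rfl
    exact this _ hy0 e4
  rw [hgl] at hn0 hd1 hd2
  obtain ⟨h1, h2⟩ := s_split hx hy hw hzuB hzvB hT hcn e4.symm hn0
  exact ⟨⟨hT.1, glue_le S hx hy hT.2 e4.symm⟩, h1, h2, hd1 zu (by rw [← e2]; simp), hd2 zv (by rw [← e5]; simp)⟩

theorem sep0 {S : Part (Fin (6 * n))} {x : Fin (6 * n)} {p q1 q2 F : ℕ} (hS : S.Typ [x] [p] F 0)
    (h1 : 1 ≤ q1) (h2 : 1 ≤ q2) (hp : q1 + q2 + 2 = p) :
    (({T | T ∈ S.Ext g ∧ S.HConn T ∧ ∃ u v, S.Sep T x u v ∧ u.length = q1 ∧ v.length = q2}.ncard : ℕ) : ℝ) ≤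
      ((3 * F).factorial : ℝ) * LL 1 {q1} {q2} F g := by
  have hx : x ∈ S.B := hS.hl.1 x List.mem_cons_self
  have hper : S.per x = p := by
    have h5 := hS.per
    rw [List.map_cons] at h5
    exact (List.cons.inj h5).1
  obtain ⟨zu, y, zv, u, v, hw, hu, hv⟩ := s_word hx hper h1 h2 hp
  have hy : y ∈ S.B := ((mem_hw S hx).1 (by rw [hw]; simp)).1
  have hG := typ_ns hS hx hy hw
  rw [← List.length_cons (a := zu), ← List.length_cons (a := zv), hu, hv] at hG
  have hzuB : zu ∈ (S.glue x y hx hy).B := hG.hl.1 zu (by simp)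
  have hzvB : zv ∈ (S.glue x y hx hy).B := hG.hl.1 zv (by simp)
  have hzu := (mem_hw S hx).1 (show zu ∈ S.hw x by rw [hw]; simp)
  have hzv := (mem_hw S hx).1 (show zv ∈ S.hw x by rw [hw]; simp)
  have hcu : (S.glue x y hx hy).Cn zu zv :=
    cn_sub (glue_sub S hx hy) hzu.1.1 (cn_of_same (hzu.2.symm.trans hzv.2))
  have h3 := two_le (g := g) (l1 := [zu]) (l2 := [zv]) (P1 := [q1]) (P2 := [q2]) (a := zu) (c := zv) hG rfl
    (by simp) (by simp) (by
      intro d hd
      rw [List.mem_singleton] at hd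
      exact ⟨zv, by simp, by rw [hd]; exact hcu⟩) (by omega)
  have h4 : {T | T ∈ S.Ext g ∧ S.HConn T ∧ ∃ u v, S.Sep T x u v ∧ u.length = q1 ∧ v.length = q2} ⊆
      {T | T ∈ (S.glue x y hx hy).Ext g ∧ Two (S.glue x y hx hy) T [zu] [zv] zu zv ∧
        ([zu].length = 1 → ∀ m, ¬ (S.glue x y hx hy).IsDisc T zu m) ∧
        ([zv].length = 1 → ∀ m, ¬ (S.glue x y hx hy).IsDisc T zv m)} := by
    rintro T ⟨hT, hcn, u0, v0, hs, hu0, -⟩
    obtain ⟨e1, e2, e3, e4, e5⟩ := s_data hx hy hw hzuB hzvB hT hcn hs (by rw [hu0, hu])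
    refine ⟨e1, ⟨?_, ?_, e2, e3⟩, fun _ => e4, fun _ => e5⟩
    · intro d hd
      rw [List.mem_singleton] at hd
      rw [hd]
      exact hc_refl _ _ _
    · intro d hd
      rw [List.mem_singleton] at hd
      rw [hd]
      exact hc_refl _ _ _
  have h5 := Set.ncard_le_ncard h4 (Set.toFinite _)
  refine le_trans (by exact_mod_cast h5) (h3.trans (le_of_eq ?_))
  have e1 : g + 1 - (0 + 1) = g := by omega
  rw [e1]
  rfl

theorem sep1 {S : Part (Fin (6 * n))} {x z : Fin (6 * n)} {p q q1 q2 F : ℕ} (hS : S.Typ [x, z] [p, q] F 1)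
    (h1 : 1 ≤ q1) (h2 : 1 ≤ q2) (hp : q1 + q2 + 2 = p) :
    (({T | T ∈ S.Ext g ∧ S.HConn T ∧ ∃ u v, S.Sep T x u v ∧ u.length = q1 ∧ v.length = q2}.ncard : ℕ) : ℝ) ≤
      ((3 * F).factorial : ℝ) * (LL 1 {q1} {q2, q} F (g - 1) + LL 1 {q2} {q1, q} F (g - 1)) := by
  have hx : x ∈ S.B := hS.hl.1 x List.mem_cons_self
  have hzB : z ∈ S.B := hS.hl.1 z (by simp)
  have hper : S.per x = p := by
    have h5 := hS.per
    rw [List.map_cons] at h5
    exact (List.cons.inj h5).1
  obtain ⟨zu, y, zv, u, v, hw, hu, hv⟩ := s_word hx hper h1 h2 hp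
  have hy : y ∈ S.B := ((mem_hw S hx).1 (by rw [hw]; simp)).1
  have hG := typ_ns hS hx hy hw
  rw [← List.length_cons (a := zu), ← List.length_cons (a := zv), hu, hv] at hG
  have hzuB : zu ∈ (S.glue x y hx hy).B := hG.hl.1 zu (by simp)
  have hzvB : zv ∈ (S.glue x y hx hy).B := hG.hl.1 zv (by simp)
  have hzG : z ∈ (S.glue x y hx hy).B := hG.hl.1 z (by simp)
  have hzu := (mem_hw S hx).1 (show zu ∈ S.hw x by rw [hw]; simp)
  have hzv := (mem_hw S hx).1 (show zv ∈ S.hw x by rw [hw]; simp)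
  have hcu : (S.glue x y hx hy).Cn zu zv :=
    cn_sub (glue_sub S hx hy) hzu.1.1 (cn_of_same (hzu.2.symm.trans hzv.2))
  have hpers := hG.per
  simp only [List.map_cons, List.map_nil, List.cons.injEq] at hpers
  obtain ⟨m1, m2, m3, -⟩ := hpers
  have hB : (S.glue x y hx hy).Typ ([zv] ++ [zu, z]) ([q2] ++ [q1, q]) F (1 + 1) := by
    have h5 := typ_perm hG (l' := [zv, zu, z]) (List.Perm.swap zv zu [z])
    simp only [List.map_cons, List.map_nil, m1, m2, m3] at h5
    exact h5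
  have h3 := two_le (g := g) (l1 := [zu]) (l2 := [zv, z]) (P1 := [q1]) (P2 := [q2, q]) (a := zu) (c := zv) hG rfl
    (by simp) (by simp) (by
      intro d hd
      rw [List.mem_singleton] at hd
      exact ⟨zv, by simp, by rw [hd]; exact hcu⟩) (by omega)
  have h3' := two_le (g := g) (l1 := [zv]) (l2 := [zu, z]) (P1 := [q2]) (P2 := [q1, q]) (a := zv) (c := zu) hB rfl
    (by simp) (by simp) (by
      intro d hd
      rw [List.mem_singleton] at hd
      exact ⟨zu, by simp, by rw [hd]; exact cn_symm hcu⟩) (by omega)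
  have h4 : {T | T ∈ S.Ext g ∧ S.HConn T ∧ ∃ u v, S.Sep T x u v ∧ u.length = q1 ∧ v.length = q2} ⊆
      {T | T ∈ (S.glue x y hx hy).Ext g ∧ Two (S.glue x y hx hy) T [zu] [zv, z] zu zv ∧
        ([zu].length = 1 → ∀ m, ¬ (S.glue x y hx hy).IsDisc T zu m) ∧
        ([zv, z].length = 1 → ∀ m, ¬ (S.glue x y hx hy).IsDisc T zv m)} ∪
      {T | T ∈ (S.glue x y hx hy).Ext g ∧ Two (S.glue x y hx hy) T [zv] [zu, z] zv zu ∧
        ([zv].length = 1 → ∀ m, ¬ (S.glue x y hx hy).IsDisc T zv m) ∧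
        ([zu, z].length = 1 → ∀ m, ¬ (S.glue x y hx hy).IsDisc T zu m)} := by
    rintro T ⟨hT, hcn, u0, v0, hs, hu0, -⟩
    obtain ⟨e1, e2, e3, e4, e5⟩ := s_data hx hy hw hzuB hzvB hT hcn hs (by rw [hu0, hu])
    rcases e3 z (Or.inr hzG) with h6 | h6
    · right
      refine ⟨e1, ⟨?_, ?_, fun h => e2 (hc_symm h), fun e he => (e3 e he).symm⟩, fun _ => e5, fun h => ?_⟩
      · intro d hd
        rw [List.mem_singleton] at hd
        rw [hd]
        exact hc_refl _ _ _
      · intro d hd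
        have hd' : d = zu ∨ d = z := by simpa using hd
        rcases hd' with h7 | h7
        · rw [h7]
          exact hc_refl _ _ _
        · rw [h7]
          exact h6
      · simp at h
    · left
      refine ⟨e1, ⟨?_, ?_, e2, e3⟩, fun _ => e4, fun h => ?_⟩
      · intro d hd
        rw [List.mem_singleton] at hd
        rw [hd]
        exact hc_refl _ _ _
      · intro d hd
        have hd' : d = zv ∨ d = z := by simpa using hd
        rcases hd' with h7 | h7
        · rw [h7]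
          exact hc_refl _ _ _
        · rw [h7]
          exact h6
      · simp at h
  have h5 := (Set.ncard_le_ncard h4 (Set.toFinite _)).trans (Set.ncard_union_le _ _)
  have e1 : g + 1 - (1 + 1) = g - 1 := by omega
  rw [e1] at h3 h3'
  rw [mul_add]
  refine le_trans ?_ (add_le_add h3 h3')
  exact_mod_cast h5

end SYS.TC
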