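import Pool.Agent.SYS.Lib.PtwB
import Pool.Agent.SYS.Reg.FilT
import Pool.Agent.SYS.Lib.Alt

/-!
# SYS-TC-Disc: hidden components which are discs

* `disc_all`: one hole, hidden part connected and `κ = g`: the hidden part is a disc.
* `disc_up`: a disc behind a hole which is not filled is a disc for the region before the filling.
-/

namespace SYS.TC

open Classical SST Part

theorem disc_all {n g : ℕ} {S : Part (Fin (6 * n))} {c : Fin (6 * n)} {p F : ℕ} {T : Tri (Fin (6 * n))}
    (hS : S.Typ [c] [p] F g) (hT : T ∈ S.Ext g) (hc : S.HConn T) : S.IsDisc T c F := by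
  have hcB : c ∈ S.B := hS.hl.1 c (by simp)
  have hle : S.Le T := hT.2
  obtain ⟨F1, V, hf⟩ := fil_of_hc hle hcB
  have hHC : S.HC T c = S.X := by
    ext d
    exact ⟨fun h => h.1, fun h => ⟨h, hc c (Or.inr hcB) d h⟩⟩
  have hB : ∀ d ∈ S.B, S.s.SameCycle c d := by
    intro d hd
    obtain ⟨e, he, h1⟩ := hS.hl.2.2 d hd
    rw [List.mem_singleton] at he
    rw [he] at h1
    exact h1
  have hset : S.B ∩ S.HC T c = {d | d ∈ S.hw c} := by
    ext d
    constructor
    · rintro ⟨h1, -⟩
      exact (mem_hw S hcB).2 ⟨h1, hB d h1⟩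
    · intro h1
      have h2 := ((mem_hw S hcB).1 h1).1
      rw [hHC]
      exact ⟨h2, Or.inr h2⟩
  rw [hset] at hf
  have hR : (ofTri T).R = S.R ∪ S.HC T c := by
    rw [hHC]
    ext d
    refine ⟨fun _ => ?_, fun _ => T.fne d⟩
    by_cases h1 : d ∈ S.R
    · exact Or.inl h1
    · exact Or.inr (Or.inl h1)
  have hBe : (ofTri T).B = S.B \ S.HC T c := by
    rw [hHC]
    ext d
    constructor
    · rintro ⟨-, h1⟩
      exact absurd h1 (T.ane d)
    · rintro ⟨h1, h2⟩
      exact absurd (Or.inr h1) h2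
  have hfill : ofTri T = S.fill T hle c :=
    fill_eq_of hle c ((le_iff_sub S T).1 hle) ⟨fun _ _ => rfl, fun _ _ => rfl⟩ hR hBe
  have hRu : (ofTri T).R = Set.univ := by
    ext d
    exact ⟨fun _ => Set.mem_univ d, fun _ => T.fne d⟩
  have h1 := hf.R
  have h2 := hf.inn
  rw [← hfill] at h1 h2
  rw [inn_tri] at h2
  rw [hRu, Set.ncard_univ, Nat.card_fin] at h1
  have h3 := hS.vol
  rw [Nat.card_fin] at h3
  have h4 := hS.eul
  have h5 : Nat.card T.V + 2 * g = n + 2 := hT.1.2
  have h6 : S.per c = p := by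
    have h7 := hS.per
    rw [List.map_cons] at h7
    exact (List.cons.inj h7).1
  have h7 := hw_length S hcB
  rw [h6] at h7
  rw [List.length_singleton, List.sum_singleton] at h4
  have hF : F1 = F := by omega
  have hV : 2 * V = 2 + F + (S.hw c).length := by omega
  rw [hF] at hf
  refine (disc_iff hle hcB F).2 ⟨S.fill T hle c, Or.inr ⟨?_, V, hV, hf⟩, fill_le hle c⟩
  obtain ⟨u, hu⟩ := hw_cons S hcB
  rw [hu]
  exact List.cons_ne_nil _ _

theorem disc_up {D : Type} [Finite D] {G S : Part D} {H : Set D} {F V : ℕ} (hH : G.HUn H) (hf : G.FillBy S H F V)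
    {T : Tri D} (hT : S.Le T) {c : D} (hc : c ∈ G.B) (hcH : c ∉ H) {a : ℕ} (hd : S.IsDisc T c a) :
    G.IsDisc T c a := by
  have hcS : c ∈ S.B := by
    rw [hf.B]
    exact ⟨hc, hcH⟩
  have hGT : G.Le T := sub_le hf.sub hT
  obtain ⟨S', h1, h2⟩ := (disc_iff hT hcS a).1 hd
  have hw : S.hw c = G.hw c := fil_hw hH hf hc hcH
  rw [hw] at h1
  have hRR : G.R ⊆ S.R := hf.sub.R_sub
  obtain ⟨u, hu⟩ := hw_cons G hc
  have hcz : ∀ z w, G.hw c = z :: w → z = c := by
    intro z w h3
    rw [hu] at h3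
    exact (List.cons.inj h3).1.symm
  obtain ⟨G', h3, h4, h5, h6⟩ := disc_tr (T := G) (u := G.hw c)
    (by
      intro z w h3
      have h4 := hcz z w h3
      subst h4
      exact ⟨hcS, by rw [hw]; exact h3⟩) h1 id (Set.injOn_id _)
    (fun d hd' h7 => hd'.2 (hRR h7))
    (by
      intro z w h3
      have h4 := hcz z w h3
      subst h4
      refine ⟨hc, ?_⟩
      rw [List.map_id]
      exact h3)
  rw [List.map_id] at h3
  rw [Set.image_id] at h4
  refine (disc_iff hGT hc a).2 ⟨G', h3, ?_, ?_⟩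
  · intro d hd'
    by_cases h7 : d ∈ G.R
    · have h8 : G.Sub G' := by
        rcases h3 with ⟨h9, -, -⟩ | ⟨-, _, -, h9⟩
        · rw [hu] at h9
          exact absurd h9 (List.cons_ne_nil _ _)
        · exact h9.sub
      rw [h8.1 d h7]
      exact hGT.1 d h7
    · have h8 : d ∈ G'.R \ G.R := ⟨hd', h7⟩
      rw [h4] at h8
      have h9 := h5 d h8
      simp only [id] at h9
      rw [h9]
      exact h2.1 d h8.1
  · intro d hd'
    have h8 : G.Sub G' ∧ ∃ V', G.FillBy G' {d | d ∈ G.hw c} a V' := by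
      rcases h3 with ⟨h9, -, -⟩ | ⟨-, V', -, h9⟩
      · rw [hu] at h9
        exact absurd h9 (List.cons_ne_nil _ _)
      · exact ⟨h9.sub, V', h9⟩
    obtain ⟨h8, V', h9⟩ := h8
    by_cases h7 : G.a d = d
    · have h10 : d ∈ (G'.R \ G.R) ∪ {d | d ∈ G.hw c} := by
        by_cases h11 : d ∈ G.R
        · right
          by_contra h12
          have h13 : d ∈ G'.B := by
            rw [h9.B]
            exact ⟨⟨h11, h7⟩, h12⟩
          exact hd' h13.2
        · left
          refine ⟨?_, h11⟩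
          intro h12
          exact hd' (G'.af d h12)
      rw [h4] at h10
      have h11 := h6 d h10
      simp only [id] at h11
      rw [h11]
      refine h2.2 d ?_
      rw [← h11]
      exact hd'
    · rw [h8.2 d h7]
      exact hGT.2 d h7

end SYS.TC
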