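import Pool.Agent.SYS.TC.Disc
import Pool.Agent.SYS.Lib.Evt
import Pool.Agent.SYS.SH.Defs
import Pool.Agent.SYS.BD.Mg

/-!
# SYS-TC-SepG: number of triangulations for which the hidden part of a region has two given components, none of them a disc

Union bound over the splittings of the triangles and of the genus (`fil_of_hc`, `fil_euler`, `typ_fill`, `fil2_card`);
`disc_iff`, `disc_all`, `disc_up` exclude genus `0` for a component with one hole.
-/

namespace SYS.TC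

open Classical SST SYS.Part Num

variable {n g : ℕ}

/-- The hidden part consists of the components of `a` (holes `l1`) and `c` (holes `l2`). -/
structure Two {D : Type} [Finite D] (G : Part D) (T : Tri D) (l1 l2 : List D) (a c : D) : Prop where
  a1 : ∀ d ∈ l1, G.Hc T a d
  c2 : ∀ d ∈ l2, G.Hc T c d
  ne : ¬ G.Hc T a c
  all : ∀ e ∈ G.X, G.Hc T a e ∨ G.Hc T c e

private theorem sg_union {α ι : Type} [Finite α] (I : Finset ι) (M : ι → Set α) (c : ι → ℝ)
    (h : ∀ i ∈ I, (((M i).ncard : ℕ) : ℝ) ≤ c i) :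
    (((⋃ i ∈ I, M i).ncard : ℕ) : ℝ) ≤ ∑ i ∈ I, c i := by
  have h1 : (⋃ i ∈ I, M i).ncard ≤ ∑ i ∈ I, (M i).ncard := Finset.set_ncard_biUnion_le _ _
  have h2 : (((⋃ i ∈ I, M i).ncard : ℕ) : ℝ) ≤ ∑ i ∈ I, (((M i).ncard : ℕ) : ℝ) := by exact_mod_cast h1
  exact h2.trans (Finset.sum_le_sum h)

/-- the hidden component behind `l1` has `F1` triangles and genus `g1` -/
private def gM (G : Part (Fin (6 * n))) (g : ℕ) (l1 : List (Fin (6 * n))) (s F1 g1 : ℕ) :
    Set (Tri (Fin (6 * n))) :=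
  {T | T ∈ G.Ext g ∧ ∃ V1, 2 * V1 + 4 * g1 + 2 * l1.length = 4 + F1 + s ∧
    ∃ S', G.FillBy S' {d | d ∈ G.B ∧ ∃ e ∈ l1, G.s.SameCycle e d} F1 V1 ∧ S'.Le T ∧ S'.HConn T}

private theorem g_count {G : Part (Fin (6 * n))} {l1 l2 : List (Fin (6 * n))} {P1 P2 : List ℕ}
    {F1 F2 g1 g2 κ : ℕ} (hG : G.Typ (l1 ++ l2) (P1 ++ P2) (F1 + F2) κ) (hl : l1.length = P1.length)
    (h1 : l1 ≠ []) (h2 : l2 ≠ []) (hc : ∀ d ∈ l1, ∃ e ∈ l2, G.Cn d e) (hg : g + 1 = g1 + g2 + κ) :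
    (((gM G g l1 P1.sum F1 g1).ncard : ℕ) : ℝ) ≤
      ((3 * (F1 + F2)).factorial : ℝ) * (muG (P1 : Multiset ℕ) F1 g1 * muG (P2 : Multiset ℕ) F2 g2) := by
  by_cases hV : ∃ V1, 2 * V1 + 4 * g1 + 2 * l1.length = 4 + F1 + P1.sum
  · obtain ⟨V1, hV1⟩ := hV
    have h3 := fil2_card (g := g) (V1 := V1) (g1 := g1) (g2 := g2) hG hl h1 h2 (by rw [← hl]; exact hV1) hc hg
    have h4 : gM G g l1 P1.sum F1 g1 = {T | T ∈ G.Ext g ∧
        ∃ S', G.FillBy S' {d | d ∈ G.B ∧ ∃ e ∈ l1, G.s.SameCycle e d} F1 V1 ∧ S'.Le T ∧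
          S'.HConn T} := by
      ext T
      constructor
      · rintro ⟨hT, V, hV, S', h5, h6, h7⟩
        have h8 : V = V1 := by omega
        rw [h8] at h5
        exact ⟨hT, S', h5, h6, h7⟩
      · rintro ⟨hT, S', h5, h6, h7⟩
        exact ⟨hT, V1, hV1, S', h5, h6, h7⟩
    rw [h4, h3, mul_assoc]
  · have h4 : gM G g l1 P1.sum F1 g1 = ∅ := by
      ext T
      constructor
      · rintro ⟨hT, V, hV', h3⟩
        exact absurd ⟨V, hV'⟩ hV
      · intro h
        exact absurd h (Set.notMem_empty T)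
    rw [h4, Set.ncard_empty, Nat.cast_zero]
    exact mul_nonneg (Nat.cast_nonneg _) (mul_nonneg (muG_nonneg _ _ _) (muG_nonneg _ _ _))

private theorem g_same {G : Part (Fin (6 * n))} {T : Tri (Fin (6 * n))} {d e : Fin (6 * n)}
    (hd : d ∈ G.B) (he : e ∈ G.B) (h : G.s.SameCycle d e) : G.Hc T d e :=
  hc_hole hd ((mem_hw G hd).2 ⟨he, h⟩)

private theorem g_mem {G : Part (Fin (6 * n))} {T : Tri (Fin (6 * n))} {l1 l2 : List (Fin (6 * n))} {P1 P2 : List ℕ}
    {F κ : ℕ} {a c : Fin (6 * n)} (hG : G.Typ (l1 ++ l2) (P1 ++ P2) F κ) (hl : l1.length = P1.length)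
    (ha : a ∈ l1) (hc2 : c ∈ l2) (hc : ∀ d ∈ l1, ∃ e ∈ l2, G.Cn d e) (hT : T ∈ G.Ext g) (hw : Two G T l1 l2 a c)
    (hκ : 1 ≤ κ) (hd1 : l1.length = 1 → ∀ m, ¬ G.IsDisc T a m) (hd2 : l2.length = 1 → ∀ m, ¬ G.IsDisc T c m) :
    ∃ F1 F2 g1 g2 : ℕ, F1 + F2 = F ∧ g1 + g2 = g + 1 - κ ∧ 1 + 1 ≤ l1.length + 2 * g1 ∧ 1 + 1 ≤ l2.length + 2 * g2 ∧
      T ∈ gM G g l1 P1.sum F1 g1 ∧ κ ≤ g + 1 := by
  have hLe : G.Le T := hT.2
  have haB : a ∈ G.B := hG.hl.1 a (List.mem_append_left _ ha)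
  have hcB : c ∈ G.B := hG.hl.1 c (List.mem_append_right _ hc2)
  have h1 : l1 ≠ [] := List.ne_nil_of_mem ha
  have h2 : l2 ≠ [] := List.ne_nil_of_mem hc2
  obtain ⟨F1, V, hf⟩ := fil_of_hc hLe haB
  have hset : G.B ∩ G.HC T a = {d | d ∈ G.B ∧ ∃ e ∈ l1, G.s.SameCycle e d} := by
    ext e
    constructor
    · rintro ⟨he, -, hae⟩
      obtain ⟨r, hr, hs⟩ := hG.hl.2.2 e he
      have hrB := hG.hl.1 r hr
      rcases List.mem_append.1 hr with h3 | h3
      · exact ⟨he, r, h3, hs⟩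
      · exact absurd (hc_trans hae (hc_symm (hc_trans (hw.c2 r h3) (g_same hrB he hs)))) hw.ne
    · rintro ⟨he, r, hr, hs⟩
      exact ⟨he, Or.inr he, hc_trans (hw.a1 r hr) (g_same (hG.hl.1 r (List.mem_append_left _ hr)) he hs)⟩
  rw [hset] at hf
  have hpw : l1.Pairwise (fun d e => ¬ G.s.SameCycle d e) := (List.pairwise_append.1 hG.hl.2.1).1
  obtain ⟨k, hk⟩ := fil_euler h1 hpw (fun e he => hG.hl.1 e (List.mem_append_left _ he)) hf
  have hP : l1.map G.per = P1 := by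
    have h3 := hG.per
    rw [List.map_append] at h3
    exact (List.append_inj h3 (by rw [List.length_map]; exact hl)).1
  rw [hP] at hk
  have hF : F1 ≤ F := by
    have h3 := hf.R
    have h4 := hG.vol
    have h5 : (G.fill T hLe a).R.ncard ≤ Nat.card (Fin (6 * n)) := by
      rw [← Set.ncard_univ]
      exact Set.ncard_le_ncard (Set.subset_univ _) (Set.toFinite _)
    omega
  obtain ⟨F2, hF2⟩ := Nat.exists_eq_add_of_le hF
  have hconn : (G.fill T hLe a).HConn T := by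
    have key : ∀ e, e ∈ (G.fill T hLe a).X → G.Hc T c e := by
      intro e he
      rw [X_fill] at he
      exact (hw.all e he.1).resolve_left fun h => he.2 ⟨he.1, h⟩
    intro e he e' he'
    exact (hc_fill hLe a he he').2 (hc_trans (hc_symm (key e he)) (key e' he'))
  have hG' := hG
  rw [hF2] at hG'
  have htyp := typ_fill (κ := κ + k - 1) (h := k) hG' hl h1 h2 hf (by
    rw [← hl]
    omega) hc (by omega)
  have hTf : T ∈ (G.fill T hLe a).Ext g := ⟨hT.1, fill_le hLe a⟩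
  have hle := typ_le htyp hTf hconn
  refine ⟨F1, F2, k, g - (κ + k - 1), hF2.symm, by omega, ?_, ?_, ⟨hT, V, hk, _, hf, fill_le hLe a, hconn⟩, by omega⟩
  · have h3 : 0 < l1.length := List.length_pos_of_ne_nil h1
    by_contra hcon
    have h4 : l1.length = 1 := by omega
    have h5 : k = 0 := by omega
    obtain ⟨a', ha'⟩ := List.length_eq_one_iff.1 h4
    have h6 : a = a' := by
      rw [ha', List.mem_singleton] at ha
      exact ha
    subst h6
    refine hd1 h4 F1 ((disc_iff hLe haB F1).2 ⟨G.fill T hLe a, Or.inr ⟨?_, V, ?_, ?_⟩, fill_le hLe a⟩)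
    · obtain ⟨u, hu⟩ := hw_cons G haB
      rw [hu]
      exact List.cons_ne_nil _ _
    · rw [hw_length G haB]
      rw [← hP, ha', h5] at hk
      simp only [List.map_cons, List.map_nil, List.sum_cons, List.sum_nil, List.length_cons, List.length_nil] at hk
      omega
    · have h7 : {d | d ∈ G.hw a} = {d | d ∈ G.B ∧ ∃ e ∈ l1, G.s.SameCycle e d} := by
        ext d
        rw [Set.mem_ofPred_eq, Set.mem_ofPred_eq, mem_hw G haB, ha']
        simp
      rw [h7]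
      exact hf
  · have h3 : 0 < l2.length := List.length_pos_of_ne_nil h2
    by_contra hcon
    have h4 : l2.length = 1 := by omega
    have h5 : κ + k - 1 = g := by omega
    obtain ⟨c', hc'⟩ := List.length_eq_one_iff.1 h4
    have h6 : c = c' := by
      rw [hc', List.mem_singleton] at hc2
      exact hc2
    subst h6
    rw [hc', h5] at htyp
    have h7 : P2.length = 1 := by
      have h8 := congrArg List.length htyp.per
      rw [List.length_map, List.length_singleton] at h8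
      exact h8.symm
    obtain ⟨p, hp⟩ := List.length_eq_one_iff.1 h7
    rw [hp] at htyp
    have h8 := disc_all htyp hTf hconn
    have hHun : G.HUn {d | d ∈ G.B ∧ ∃ e ∈ l1, G.s.SameCycle e d} := by
      refine ⟨fun d hd => hd.1, ?_⟩
      rintro d ⟨_, e, he, hed⟩ e' he' hde
      exact ⟨he', e, he, hed.trans hde⟩
    refine hd2 h4 F2 (disc_up hHun hf (fill_le hLe a) hcB ?_ h8)
    rintro ⟨-, e, he, hec⟩
    exact hw.ne (hc_trans (hw.a1 e he) (g_same (hG.hl.1 e (List.mem_append_left _ he)) hcB hec))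

theorem two_le {G : Part (Fin (6 * n))} {l1 l2 : List (Fin (6 * n))} {P1 P2 : List ℕ}
    {F κ : ℕ} {a c : Fin (6 * n)} (hG : G.Typ (l1 ++ l2) (P1 ++ P2) F κ) (hl : l1.length = P1.length)
    (ha : a ∈ l1) (hc2 : c ∈ l2) (hc : ∀ d ∈ l1, ∃ e ∈ l2, G.Cn d e) (hκ : 1 ≤ κ) :
    (({T | T ∈ G.Ext g ∧ Two G T l1 l2 a c ∧ (l1.length = 1 → ∀ m, ¬ G.IsDisc T a m) ∧
      (l2.length = 1 → ∀ m, ¬ G.IsDisc T c m)}.ncard : ℕ) : ℝ) ≤
      ((3 * F).factorial : ℝ) * LL 1 (P1 : Multiset ℕ) (P2 : Multiset ℕ) F (g + 1 - κ) := by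
  have hl2 : l2.length = P2.length := by
    have h3 := congrArg List.length hG.per
    rw [List.length_map, List.length_append, List.length_append] at h3
    omega
  have h1 : l1 ≠ [] := List.ne_nil_of_mem ha
  have h2 : l2 ≠ [] := List.ne_nil_of_mem hc2
  by_cases hκg : κ ≤ g + 1
  · let I := (Finset.HasAntidiagonal.antidiagonal F ×ˢ Finset.HasAntidiagonal.antidiagonal (g + 1 - κ)).filter
      (fun i => 1 + 1 ≤ l1.length + 2 * i.2.1 ∧ 1 + 1 ≤ l2.length + 2 * i.2.2)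
    have h3 := sg_union (α := Tri (Fin (6 * n))) I (fun i => gM G g l1 P1.sum i.1.1 i.2.1)
      (fun i => ((3 * F).factorial : ℝ) *
        (muG (P1 : Multiset ℕ) i.1.1 i.2.1 * muG (P2 : Multiset ℕ) i.1.2 i.2.2)) (by
        intro i hi
        rw [Finset.mem_filter, Finset.mem_product, Finset.HasAntidiagonal.mem_antidiagonal,
          Finset.HasAntidiagonal.mem_antidiagonal] at hi
        have h4 := g_count (g := g) (F1 := i.1.1) (F2 := i.1.2) (g1 := i.2.1) (g2 := i.2.2) (κ := κ)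
          (by rw [hi.1.1]; exact hG) hl h1 h2 hc (by omega)
        rw [hi.1.1] at h4
        exact h4)
    have h4 : {T | T ∈ G.Ext g ∧ Two G T l1 l2 a c ∧ (l1.length = 1 → ∀ m, ¬ G.IsDisc T a m) ∧
        (l2.length = 1 → ∀ m, ¬ G.IsDisc T c m)} ⊆ ⋃ i ∈ I, gM G g l1 P1.sum i.1.1 i.2.1 := by
      rintro T ⟨hT, hw, hd1, hd2⟩
      obtain ⟨F1, F2, g1, g2, e1, e2, e3, e4, e5, -⟩ := g_mem hG hl ha hc2 hc hT hw hκ hd1 hd2
      refine Set.mem_iUnion₂.2 ⟨((F1, F2), (g1, g2)), ?_, e5⟩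
      rw [Finset.mem_filter, Finset.mem_product, Finset.HasAntidiagonal.mem_antidiagonal,
        Finset.HasAntidiagonal.mem_antidiagonal]
      exact ⟨⟨e1, e2⟩, e3, e4⟩
    have h5 := Set.ncard_le_ncard h4 (Set.toFinite _)
    have h6 : (({T | T ∈ G.Ext g ∧ Two G T l1 l2 a c ∧ (l1.length = 1 → ∀ m, ¬ G.IsDisc T a m) ∧
        (l2.length = 1 → ∀ m, ¬ G.IsDisc T c m)}.ncard : ℕ) : ℝ) ≤
        (((⋃ i ∈ I, gM G g l1 P1.sum i.1.1 i.2.1).ncard : ℕ) : ℝ) := by exact_mod_cast h5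
    refine h6.trans (h3.trans (le_of_eq ?_))
    unfold LL
    rw [Finset.sum_filter, Finset.sum_product, Finset.mul_sum]
    refine Finset.sum_congr rfl fun f _ => ?_
    rw [Finset.mul_sum]
    refine Finset.sum_congr rfl fun e _ => ?_
    rw [Multiset.coe_card, Multiset.coe_card, ← hl, ← hl2]
    split_ifs
    · rfl
    · rw [mul_zero]
  · have h4 : {T | T ∈ G.Ext g ∧ Two G T l1 l2 a c ∧ (l1.length = 1 → ∀ m, ¬ G.IsDisc T a m) ∧
        (l2.length = 1 → ∀ m, ¬ G.IsDisc T c m)} = ∅ := by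
      ext T
      constructor
      · rintro ⟨hT, hw, hd1, hd2⟩
        obtain ⟨F1, F2, g1, g2, e1, e2, e3, e4, e5, e6⟩ := g_mem hG hl ha hc2 hc hT hw hκ hd1 hd2
        exact absurd e6 hκg
      · intro h
        exact absurd h (Set.notMem_empty T)
    rw [h4, Set.ncard_empty, Nat.cast_zero]
    refine mul_nonneg (Nat.cast_nonneg _) ?_
    unfold LL
    refine Finset.sum_nonneg fun f _ => Finset.sum_nonneg fun e _ => ?_
    split_ifs
    · exact mul_nonneg (muG_nonneg _ _ _) (muG_nonneg _ _ _)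
    · exact le_rfl

end SYS.TC
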