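import Pool.Agent.SYS.TC.Sep
import Pool.Agent.SYS.CH.Defs

/-!
# SYS-TC-Trm: numbers of terminal events at a gate

`Tm 0` (one hole): separation.  `Tm 1` (two holes, `κ = 1`): separation, gluing inside the hole, merge.
-/

namespace SYS.TC

open Classical SST SYS.Part SYS.Num SYS.CH

variable {n g : ℕ}

private theorem t_union {α ι : Type} [Finite α] (I : Finset ι) (M : ι → Set α) (A : Set α) (c : ι → ℝ)
    (h : ∀ i ∈ I, (((M i).ncard : ℕ) : ℝ) ≤ c i) (hA : A ⊆ ⋃ i ∈ I, M i) :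
    ((A.ncard : ℕ) : ℝ) ≤ ∑ i ∈ I, c i := by
  have h1 : (⋃ i ∈ I, M i).ncard ≤ ∑ i ∈ I, (M i).ncard := Finset.set_ncard_biUnion_le _ _
  have h2 := (Set.ncard_le_ncard hA (Set.toFinite _)).trans h1
  have h3 : ((A.ncard : ℕ) : ℝ) ≤ ∑ i ∈ I, (((M i).ncard : ℕ) : ℝ) := by exact_mod_cast h2
  exact h3.trans (Finset.sum_le_sum h)

private theorem t_LL (a : ℕ) (P₁ P₂ : Multiset ℕ) (F g : ℕ) : 0 ≤ LL a P₁ P₂ F g := by
  unfold LL
  refine Finset.sum_nonneg fun f _ => Finset.sum_nonneg fun e _ => ?_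
  split_ifs
  · exact mul_nonneg (muG_nonneg _ _ _) (muG_nonneg _ _ _)
  · exact le_rfl

private theorem t_len {S : Part (Fin (6 * n))} {x y : Fin (6 * n)} {p : ℕ} (hx : x ∈ S.B) (hper : S.per x = p)
    {u v : List (Fin (6 * n))} (hw : S.hw x = x :: (u ++ y :: v)) (hu : u ≠ []) (hv : v ≠ []) :
    1 ≤ u.length ∧ u.length + 3 ≤ p ∧ v.length = p - 2 - u.length ∧ u.length < p := by
  have h1 := hw_length S hx
  rw [hw, hper, List.length_cons, List.length_append, List.length_cons] at h1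
  have h2 := List.length_pos_of_ne_nil hu
  have h3 := List.length_pos_of_ne_nil hv
  omega

/-- Splitting of `p - 2`. -/
def Sp (p i : ℕ) : Prop := 1 ≤ i ∧ i + 3 ≤ p

theorem trm0 {S : Part (Fin (6 * n))} {x : Fin (6 * n)} {p F : ℕ} (hS : S.Typ [x] [p] F 0) :
    (({T | T ∈ S.Ext g ∧ S.HConn T ∧ Tm 0 T S x}.ncard : ℕ) : ℝ) ≤
      ((3 * F).factorial : ℝ) * ∑ i ∈ Finset.range p, if Sp p i then LL 1 {i} {p - 2 - i} F g else 0 := by
  have hx : x ∈ S.B := hS.hl.1 x List.mem_cons_self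
  have hper : S.per x = p := by
    have h5 := hS.per
    rw [List.map_cons] at h5
    exact (List.cons.inj h5).1
  rw [Finset.mul_sum]
  refine t_union (Finset.range p)
    (fun i => {T | T ∈ S.Ext g ∧ S.HConn T ∧ ∃ u v, S.Sep T x u v ∧ u.length = i ∧ v.length = p - 2 - i}) _ _ ?_ ?_
  · intro i _
    by_cases hi : Sp p i
    · rw [if_pos hi]
      obtain ⟨h1, h2⟩ := hi
      exact sep0 hS h1 (by omega) (by omega)
    · rw [if_neg hi, mul_zero]
      have h1 : {T | T ∈ S.Ext g ∧ S.HConn T ∧ ∃ u v, S.Sep T x u v ∧ u.length = i ∧ v.length = p - 2 - i} = ∅ := by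
        ext T
        constructor
        · rintro ⟨-, -, u, v, hs, hu, hv⟩
          obtain ⟨a1, a2, a3, a4⟩ := t_len hx hper hs.2.2.1 hs.1 hs.2.1
          exact absurd ⟨by omega, by omega⟩ hi
        · intro h
          exact absurd h (Set.notMem_empty T)
      rw [h1, Set.ncard_empty, Nat.cast_zero]
  · rintro T ⟨hT, hc, h1⟩
    rcases h1 with ⟨u, v, hs⟩ | ⟨h2, -⟩
    · obtain ⟨a1, a2, a3, a4⟩ := t_len hx hper hs.2.2.1 hs.1 hs.2.1
      exact Set.mem_iUnion₂.2 ⟨u.length, Finset.mem_range.2 a4, hT, hc, u, v, hs, rfl, a3⟩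
    · exact absurd h2 (by norm_num)

private theorem t_two {S : Part (Fin (6 * n))} {x z : Fin (6 * n)} {F : ℕ} (hS : S.Typ [x, z] [1, 1] F 1)
    (hF : 1 ≤ F) {T : Tri (Fin (6 * n))} (hT : T ∈ S.Ext g) (hc : S.HConn T) (hm : S.Mrg T x) : False := by
  have hx : x ∈ S.B := hS.hl.1 x (by simp)
  have hz : z ∈ S.B := hS.hl.1 z (by simp)
  have hpers := hS.per
  simp only [List.map_cons, List.map_nil, List.cons.injEq] at hpers
  obtain ⟨m1, m2, -⟩ := hpers
  have hone : ∀ y ∈ S.B, S.per y = 1 → ∀ d ∈ S.B, S.s.SameCycle y d → d = y := by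
    intro y hy h1 d hd h2
    obtain ⟨u, hu⟩ := hw_cons S hy
    have h3 := hw_length S hy
    rw [hu, h1, List.length_cons] at h3
    have h4 : u = [] := List.length_eq_zero_iff.1 (by omega)
    have h5 := (mem_hw S hy).2 ⟨hd, h2⟩
    rw [hu, h4, List.mem_singleton] at h5
    exact h5
  have hax : T.a x = z := by
    obtain ⟨e, he, h1⟩ := hS.hl.2.2 (T.a x) hm.1
    have he' : e = x ∨ e = z := by simpa using he
    rcases he' with h2 | h2
    · rw [h2] at h1
      exact absurd h1 hm.2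
    · rw [h2] at h1
      exact hone z hz m2 _ hm.1 h1
  have hnx : ∀ y ∈ S.B, S.per y = 1 → S.nx y = y := by
    intro y hy h1
    obtain ⟨h2, h3⟩ := nx_pow_same S hy 1
    rw [pow_one] at h2 h3
    exact hone y hy h1 _ h2 h3
  -- a hidden face
  obtain ⟨d, hd⟩ : ∃ d, d ∉ S.R := by
    by_contra hcon
    push Not at hcon
    have h1 : S.R = Set.univ := by
      ext d
      exact ⟨fun _ => Set.mem_univ d, fun _ => hcon d⟩
    have h2 := hS.vol
    rw [h1, Set.ncard_univ] at h2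
    omega
  have key : ∀ d e, S.Hc T d e → ((d = x ∨ d = z) ↔ (e = x ∨ e = z)) := by
    intro d e h
    refine hc_ind (S := S) (T := T) (fun d e => (d = x ∨ d = z) ↔ (e = x ∨ e = z)) (fun _ => Iff.rfl)
      (fun _ _ h => h.symm) (fun _ _ _ h h' => h.trans h') ?_ ?_ ?_ h
    · intro d hd
      have h1 : ∀ d, (d = x ∨ d = z) → (T.a d = x ∨ T.a d = z) := by
        rintro d (h2 | h2)
        · rw [h2]
          exact Or.inr hax
        · rw [h2, ← hax, T.aa]
          exact Or.inl rfl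
      refine ⟨h1 d, fun h2 => ?_⟩
      have h3 := h1 _ h2
      rw [T.aa] at h3
      exact h3
    · intro d hd
      have h1 : ¬ (d = x ∨ d = z) := by
        rintro (h2 | h2)
        · exact hd (by rw [h2]; exact hx.1)
        · exact hd (by rw [h2]; exact hz.1)
      have h3 : ¬ (T.f d = x ∨ T.f d = z) := by
        have h4 : T.f d ∉ S.R := fun h5 => hd ((le_f_mem hT.2 d).1 h5)
        rintro (h2 | h2)
        · exact h4 (by rw [h2]; exact hx.1)
        · exact h4 (by rw [h2]; exact hz.1)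
      exact ⟨fun h => absurd h h1, fun h => absurd h h3⟩
    · intro d hd
      constructor
      · rintro (h2 | h2)
        · rw [h2, hnx x hx m1]
          exact Or.inl rfl
        · rw [h2, hnx z hz m2]
          exact Or.inr rfl
      · intro h2
        rcases h2 with h2 | h2
        · left
          have h3 : S.nx d = S.nx x := by rw [hnx x hx m1, h2]
          exact S.nx.injective h3
        · right
          have h3 : S.nx d = S.nx z := by rw [hnx z hz m2, h2]
          exact S.nx.injective h3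
  have h1 := (key x d (hc x (Or.inr hx) d (Or.inl hd))).1 (Or.inl rfl)
  rcases h1 with h2 | h2
  · exact hd (by rw [h2]; exact hx.1)
  · exact hd (by rw [h2]; exact hz.1)

private theorem t_mrg {S : Part (Fin (6 * n))} {x z : Fin (6 * n)} {p q F : ℕ} (hS : S.Typ [x, z] [p, q] F 1)
    (hg : 1 ≤ g) (hF : 1 ≤ F) :
    (({T | T ∈ S.Ext g ∧ S.HConn T ∧ S.Mrg T x}.ncard : ℕ) : ℝ) ≤
      ((3 * F).factorial : ℝ) * (q * (if 2 < p + q then muG {p + q - 2} F (g - 1) else 0)) := by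
  have hx : x ∈ S.B := hS.hl.1 x (by simp)
  have hz : z ∈ S.B := hS.hl.1 z (by simp)
  have hpers := hS.per
  simp only [List.map_cons, List.map_nil, List.cons.injEq] at hpers
  obtain ⟨m1, m2, -⟩ := hpers
  by_cases hpq : 2 < p + q
  · rw [if_pos hpq]
    have h1 := t_union (S.hw z).toFinset (fun y => {T | T ∈ S.Ext g ∧ S.HConn T ∧ T.a x = y})
      {T | T ∈ S.Ext g ∧ S.HConn T ∧ S.Mrg T x} (fun _ => ((3 * F).factorial : ℝ) * muG {p + q - 2} F (g - 1)) (by
        intro y hy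
        have hy' := (mem_hw S hz).1 (List.mem_toFinset.1 hy)
        have h2 := typ_perm hS (l' := [z, x]) (List.Perm.swap z x [])
        simp only [List.map_cons, List.map_nil, m1, m2] at h2
        have h3 := typ_repl h2 hy'.1 hy'.2
        have h4 := typ_perm h3 (l' := [x, y]) (List.Perm.swap x y [])
        have h5 : S.per y = q := by rw [← m2]; exact (per_same S hy'.2).symm
        simp only [List.map_cons, List.map_nil, m1, h5] at h4
        have h6 := mrg_card (g := g) (h := g - 1) h4 hpq (by omega)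
        exact le_of_eq h6) (by
        rintro T ⟨h3, h4, h5, h6⟩
        obtain ⟨e, he, hes⟩ := hS.hl.2.2 (T.a x) h5
        have he' : e = x ∨ e = z := by simpa using he
        rcases he' with h7 | h7
        · rw [h7] at hes
          exact absurd hes h6
        · rw [h7] at hes
          exact Set.mem_iUnion₂.2 ⟨T.a x, List.mem_toFinset.2 ((mem_hw S hz).2 ⟨h5, hes⟩), h3, h4, rfl⟩)
    refine h1.trans (le_of_eq ?_)
    rw [Finset.sum_const, List.toFinset_card_of_nodup (hw_nodup S hz), hw_length S hz, m2, nsmul_eq_mul]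
    ring
  · rw [if_neg hpq, mul_zero, mul_zero]
    have hp : 1 ≤ p := by
      rw [← m1]
      exact per_pos S hx
    have hq : 1 ≤ q := by
      rw [← m2]
      exact per_pos S hz
    have e1 : p = 1 := by omega
    have e2 : q = 1 := by omega
    subst e1 e2
    have h1 : {T | T ∈ S.Ext g ∧ S.HConn T ∧ S.Mrg T x} = ∅ := by
      ext T
      constructor
      · rintro ⟨h3, h4, h5⟩
        exact (t_two hS hF h3 h4 h5).elim
      · intro h
        exact absurd h (Set.notMem_empty T)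
    rw [h1, Set.ncard_empty, Nat.cast_zero]

theorem trm1 {S : Part (Fin (6 * n))} {x z : Fin (6 * n)} {p q F : ℕ} (hS : S.Typ [x, z] [p, q] F 1)
    (hg : 2 ≤ g) (hF : 1 ≤ F) :
    (({T | T ∈ S.Ext g ∧ S.HConn T ∧ Tm 1 T S x}.ncard : ℕ) : ℝ) ≤
      ((3 * F).factorial : ℝ) * (∑ i ∈ Finset.range p, (if Sp p i then muG {i, p - 2 - i, q} F (g - 2) +
        (LL 1 {i} {p - 2 - i, q} F (g - 1) + LL 1 {p - 2 - i} {i, q} F (g - 1)) else 0) +
        q * (if 2 < p + q then muG {p + q - 2} F (g - 1) else 0)) := by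
  have hx : x ∈ S.B := hS.hl.1 x List.mem_cons_self
  have hper : S.per x = p := by
    have h5 := hS.per
    rw [List.map_cons] at h5
    exact (List.cons.inj h5).1
  have hN := t_union (Finset.range p)
    (fun i => {T | T ∈ S.Ext g ∧ S.HConn T ∧ ∃ u v, S.NSt T x u v ∧ u.length = i ∧ v.length = p - 2 - i} ∪
      {T | T ∈ S.Ext g ∧ S.HConn T ∧ ∃ u v, S.Sep T x u v ∧ u.length = i ∧ v.length = p - 2 - i})
    {T | T ∈ S.Ext g ∧ S.HConn T ∧ ((∃ u v, S.Sep T x u v) ∨ ∃ u v, S.NSt T x u v)}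
    (fun i => ((3 * F).factorial : ℝ) * (if Sp p i then muG {i, p - 2 - i, q} F (g - 2) +
        (LL 1 {i} {p - 2 - i, q} F (g - 1) + LL 1 {p - 2 - i} {i, q} F (g - 1)) else 0)) (by
      intro i _
      by_cases hi : Sp p i
      · rw [if_pos hi, mul_add]
        obtain ⟨h1, h2⟩ := hi
        have h3 := ns_card (g := g) (h := g - 2) hS h1 (show 0 < p - 2 - i by omega) (by omega) (by omega)
        have h4 := sep1 (g := g) hS h1 (show 1 ≤ p - 2 - i by omega) (by omega)
        refine le_trans ?_ (add_le_add (le_of_eq h3) h4)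
        exact_mod_cast Set.ncard_union_le _ _
      · rw [if_neg hi, mul_zero]
        have h1 : {T | T ∈ S.Ext g ∧ S.HConn T ∧ ∃ u v, S.NSt T x u v ∧ u.length = i ∧ v.length = p - 2 - i} ∪
            {T | T ∈ S.Ext g ∧ S.HConn T ∧ ∃ u v, S.Sep T x u v ∧ u.length = i ∧ v.length = p - 2 - i} = ∅ := by
          ext T
          constructor
          · rintro (⟨-, -, u, v, hs, hu, hv⟩ | ⟨-, -, u, v, hs, hu, hv⟩)
            · obtain ⟨a1, a2, a3, a4⟩ := t_len hx hper hs.2.2.1 hs.1 hs.2.1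
              exact absurd ⟨by omega, by omega⟩ hi
            · obtain ⟨a1, a2, a3, a4⟩ := t_len hx hper hs.2.2.1 hs.1 hs.2.1
              exact absurd ⟨by omega, by omega⟩ hi
          · intro h
            exact absurd h (Set.notMem_empty T)
        rw [h1, Set.ncard_empty, Nat.cast_zero]) (by
      rintro T ⟨hT, hc, ⟨u, v, hs⟩ | ⟨u, v, hs⟩⟩
      · obtain ⟨a1, a2, a3, a4⟩ := t_len hx hper hs.2.2.1 hs.1 hs.2.1
        exact Set.mem_iUnion₂.2 ⟨u.length, Finset.mem_range.2 a4, Or.inr ⟨hT, hc, u, v, hs, rfl, a3⟩⟩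
      · obtain ⟨a1, a2, a3, a4⟩ := t_len hx hper hs.2.2.1 hs.1 hs.2.1
        exact Set.mem_iUnion₂.2 ⟨u.length, Finset.mem_range.2 a4, Or.inl ⟨hT, hc, u, v, hs, rfl, a3⟩⟩)
  have hM := t_mrg (g := g) hS (by omega) hF
  have hsub : {T | T ∈ S.Ext g ∧ S.HConn T ∧ Tm 1 T S x} ⊆
      {T | T ∈ S.Ext g ∧ S.HConn T ∧ ((∃ u v, S.Sep T x u v) ∨ ∃ u v, S.NSt T x u v)} ∪
      {T | T ∈ S.Ext g ∧ S.HConn T ∧ S.Mrg T x} := by
    rintro T ⟨hT, hc, h1 | ⟨-, h1 | h1⟩⟩
    · exact Or.inl ⟨hT, hc, Or.inl h1⟩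
    · exact Or.inl ⟨hT, hc, Or.inr h1⟩
    · exact Or.inr ⟨hT, hc, h1⟩
  have h1 := (Set.ncard_le_ncard hsub (Set.toFinite _)).trans (Set.ncard_union_le _ _)
  rw [← Finset.mul_sum] at hN
  rw [mul_add]
  refine le_trans ?_ (add_le_add hN hM)
  exact_mod_cast h1

theorem LL_one_two (p q F g : ℕ) : LL 1 {p} {q} F g = LL 2 {p} {q} F g := by
  unfold LL
  refine Finset.sum_congr rfl fun f _ => Finset.sum_congr rfl fun e _ => ?_
  rw [Multiset.card_singleton, Multiset.card_singleton]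
  by_cases h : 1 + 1 ≤ 1 + 2 * e.1 ∧ 1 + 1 ≤ 1 + 2 * e.2
  · rw [if_pos h, if_pos (by omega)]
  · rw [if_neg h, if_neg (by omega)]

theorem LL_nn (a : ℕ) (P₁ P₂ : Multiset ℕ) (F g : ℕ) : 0 ≤ LL a P₁ P₂ F g := t_LL a P₁ P₂ F g

end SYS.TC
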